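import Mathlib

set_option autoImplicit false

namespace Pool.Agent.X251.BC

/-- `w` is an affine signed permutation of `ℤ`: `w (-i) = - w i`, `w (i + N) = w i + N`,
`N = 2 n + 2`. -/
def Aff (n : ℕ) (w : Equiv.Perm ℤ) : Prop :=
  (∀ i : ℤ, w (-i) = -w i) ∧ ∀ i : ℤ, w (i + (2 * n + 2)) = w i + (2 * n + 2)

/-- the group of affine signed permutations for which the number of `i > 0` with `w i < 0`
is even -/
def InB (n : ℕ) (w : Equiv.Perm ℤ) : Prop :=
  Aff n w ∧ Even (Set.ncard {i : ℤ | 0 < i ∧ w i < 0})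

/-- `t = ⟨(i j)⟩`: `t` exchanges `s i` and `s j` for all the maps `s x = ± x + k N` and fixes every
other integer. -/
def IsTransp (n : ℕ) (i j : ℤ) (t : Equiv.Perm ℤ) : Prop :=
  (∀ e k : ℤ, (e = 1 ∨ e = -1) →
    t (e * i + k * (2 * n + 2)) = e * j + k * (2 * n + 2) ∧
    t (e * j + k * (2 * n + 2)) = e * i + k * (2 * n + 2)) ∧
  ∀ x : ℤ, (∀ e k : ℤ, (e = 1 ∨ e = -1) →
    x ≠ e * i + k * (2 * n + 2) ∧ x ≠ e * j + k * (2 * n + 2)) → t x = x

/-- the reflections -/
def Refl (n : ℕ) : Set (Equiv.Perm ℤ) :=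
  {t | InB n t ∧ ∃ i j : ℤ, i ≠ j ∧ IsTransp n i j t}

/-- the total displacement -/
noncomputable def tvd (n : ℕ) (w : Equiv.Perm ℤ) : ℤ := ∑ i ∈ Finset.Icc (1 : ℤ) n, |w i - i|

variable {n : ℕ} {w t u : Equiv.Perm ℤ}

lemma Aff.zero (h : Aff n w) : w 0 = 0 := by
  have := h.1 0
  simp only [neg_zero] at this
  omega

lemma Aff.addk (h : Aff n w) (i k : ℤ) :
    w (i + k * (2 * n + 2)) = w i + k * (2 * n + 2) := by
  induction k using Int.induction_on with
  | zero => simp
  | succ k ih =>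
    have := h.2 (i + k * (2 * n + 2))
    rw [ih] at this
    rw [show i + ((k : ℤ) + 1) * (2 * n + 2) = i + k * (2 * n + 2) + (2 * n + 2) by ring, this]
    ring
  | pred k ih =>
    have := h.2 (i + (-(k : ℤ) - 1) * (2 * n + 2))
    rw [show i + (-(k : ℤ) - 1) * (2 * n + 2) + (2 * n + 2) = i + -(k : ℤ) * (2 * n + 2) by ring,
      ih] at this
    linarith

lemma Aff.act (h : Aff n w) (e i k : ℤ) (he : e = 1 ∨ e = -1) :
    w (e * i + k * (2 * n + 2)) = e * w i + k * (2 * n + 2) := by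
  rw [h.addk]
  rcases he with rfl | rfl
  · simp
  · simp [h.1]

lemma Aff.center (h : Aff n w) (k : ℤ) : w (k * (n + 1)) = k * (n + 1) := by
  have h1 : w ((n : ℤ) + 1) = n + 1 := by
    have h2 := h.2 (-((n : ℤ) + 1))
    rw [h.1, show -((n : ℤ) + 1) + (2 * n + 2) = n + 1 by ring] at h2
    linarith
  rcases Int.even_or_odd' k with ⟨m, rfl | rfl⟩
  · have := h.addk 0 m
    rw [h.zero] at this
    rw [show 2 * m * ((n : ℤ) + 1) = 0 + m * (2 * n + 2) by ring, this]
  · have := h.addk (n + 1) m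
    rw [h1] at this
    rw [show (2 * m + 1) * ((n : ℤ) + 1) = n + 1 + m * (2 * n + 2) by ring, this]

lemma Aff.mul (h : Aff n w) (h' : Aff n t) : Aff n (w * t) :=
  ⟨fun i => by simp [Equiv.Perm.mul_apply, h'.1, h.1],
    fun i => by simp only [Equiv.Perm.mul_apply]; rw [h'.2, h.2]⟩

lemma aff_one : Aff n 1 := ⟨fun _ => rfl, fun _ => rfl⟩

/-- every integer has a representative in `[0, n + 1]` -/
lemma rep (n : ℕ) (x : ℤ) : ∃ r e k : ℤ, 0 ≤ r ∧ r ≤ n + 1 ∧ (e = 1 ∨ e = -1) ∧
    x = e * r + k * (2 * n + 2) := by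
  have hN : (0 : ℤ) < 2 * n + 2 := by positivity
  have h0 := Int.emod_nonneg x hN.ne'
  have h1 := Int.emod_lt_of_pos x hN
  have h2 := Int.emod_add_mul_ediv x (2 * n + 2)
  by_cases h : x % (2 * n + 2) ≤ n + 1
  · exact ⟨x % (2 * n + 2), 1, x / (2 * n + 2), h0, h, Or.inl rfl, by linarith⟩
  · push Not at h
    exact ⟨2 * n + 2 - x % (2 * n + 2), -1, x / (2 * n + 2) + 1, by linarith, by linarith,
      Or.inr rfl, by linarith⟩

lemma mul_small {a k : ℤ} (h : |a| < 2 * n + 2) (h2 : a = k * (2 * n + 2)) : k = 0 := by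
  by_contra hk
  have h3 : 1 ≤ |k| := Int.one_le_abs hk
  have h4 : |a| = |k| * (2 * n + 2) := by
    rw [h2, abs_mul, abs_of_nonneg (by positivity : (0 : ℤ) ≤ 2 * n + 2)]
  nlinarith

/-- uniqueness of the representative -/
lemma uniq {r r' e e' k k' : ℤ} (hr : 1 ≤ r) (hr2 : r ≤ n) (hr' : 1 ≤ r') (hr2' : r' ≤ n)
    (he : e = 1 ∨ e = -1) (he' : e' = 1 ∨ e' = -1)
    (h : e * r + k * (2 * n + 2) = e' * r' + k' * (2 * n + 2)) : r = r' ∧ e = e' ∧ k = k' := by
  have h1 : k' - k = 0 := by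
    refine mul_small (n := n) (a := e * r - e' * r') ?_ (by linarith)
    rw [abs_lt]
    rcases he with rfl | rfl <;> rcases he' with rfl | rfl <;> constructor <;> linarith
  have h2 : k' = k := by linarith
  subst h2
  have h3 : e * r = e' * r' := by linarith
  rcases he with rfl | rfl <;> rcases he' with rfl | rfl <;> refine ⟨by linarith, ?_, rfl⟩ <;>
    first | rfl | (exfalso; linarith)

/-- multiples of `n + 1` are not equivalent to the numbers in `[1, n]` -/
lemma not_center {r e k m : ℤ} (hr : 1 ≤ r) (hr2 : r ≤ n) (he : e = 1 ∨ e = -1)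
    (h : e * r + k * (2 * n + 2) = m * (n + 1)) : False := by
  have h1 : e * r = (m - 2 * k) * (n + 1) := by linarith
  have h2 : m - 2 * k = 0 := by
    by_contra hk
    have h3 : 1 ≤ |m - 2 * k| := Int.one_le_abs hk
    have h4 : |e * r| = |m - 2 * k| * (n + 1) := by
      rw [h1, abs_mul, abs_of_nonneg (by positivity : (0 : ℤ) ≤ n + 1)]
    have h5 : |e * r| = r := by
      rcases he with rfl | rfl
      · rw [one_mul, abs_of_pos (by linarith)]
      · rw [neg_one_mul, abs_neg, abs_of_pos (by linarith)]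
    nlinarith
  rw [h2, zero_mul] at h1
  rcases he with rfl | rfl <;> linarith

lemma reindex {M : Type*} [AddCommMonoid M] (ht : Aff n t) (f : ℤ → M) (h1 : ∀ x, f (-x) = f x)
    (h2 : ∀ x, f (x + (2 * n + 2)) = f x) :
    ∑ i ∈ Finset.Icc (1 : ℤ) n, f (t i) = ∑ i ∈ Finset.Icc (1 : ℤ) n, f i := by
  classical
  choose r e k hr0 hr1 he hx using rep n
  have hfk : ∀ (x k : ℤ), f (x + k * (2 * n + 2)) = f x := by
    intro x k
    induction k using Int.induction_on with
    | zero => simp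
    | succ k ih =>
      rw [← ih, ← h2 (x + k * (2 * n + 2))]
      congr 1; ring
    | pred k ih =>
      rw [← ih, ← h2 (x + (-(k : ℤ) - 1) * (2 * n + 2))]
      congr 1; ring
  have hf : ∀ x, f x = f (r x) := by
    intro x
    conv_lhs => rw [hx x]
    rw [hfk]
    rcases he x with h | h <;> rw [h]
    · simp
    · rw [neg_one_mul, h1]
  have hmaps : ∀ i ∈ Finset.Icc (1 : ℤ) n, r (t i) ∈ Finset.Icc (1 : ℤ) n := by
    intro i hi
    rw [Finset.mem_Icc] at hi ⊢
    have hxx := hx (t i)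
    have hc : ∀ m : ℤ, t i ≠ m * (n + 1) := by
      intro m hm
      have : t i = t (m * (n + 1)) := by rw [hm, ht.center]
      have := t.injective this
      exact not_center (n := n) (r := i) (e := 1) (k := 0) (m := m) hi.1 hi.2 (Or.inl rfl)
        (by rw [this]; ring)
    have a0 := hr0 (t i)
    have a1 := hr1 (t i)
    constructor
    · by_contra hcon
      have : r (t i) = 0 := by omega
      rw [this] at hxx
      exact hc (2 * k (t i)) (by linear_combination hxx)
    · by_contra hcon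
      have : r (t i) = n + 1 := by omega
      rw [this] at hxx
      rcases he (t i) with h | h <;> rw [h] at hxx
      · exact hc (2 * k (t i) + 1) (by linear_combination hxx)
      · exact hc (2 * k (t i) - 1) (by linear_combination hxx)
  have hinj : Set.InjOn (fun i => r (t i)) (Finset.Icc (1 : ℤ) n : Finset ℤ) := by
    intro i hi j hj hij
    simp only [Finset.coe_Icc, Set.mem_Icc] at hi hj
    simp only at hij
    -- t i = e r + k N, t j = e' r + k' N
    have h3 := hx (t i)
    have h4 := hx (t j)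
    rw [← hij] at h4
    -- r (t i) = e * (t i - k N)
    have hee : e (t i) * e (t i) = 1 := by rcases he (t i) with h | h <;> rw [h] <;> norm_num
    have h5 : t j = (e (t j) * e (t i)) * t i +
        (k (t j) - (e (t j) * e (t i)) * k (t i)) * (2 * n + 2) := by
      linear_combination h4 - (e (t j) * e (t i)) * h3 - (e (t j) * r (t i)) * hee
    have hs : e (t j) * e (t i) = 1 ∨ e (t j) * e (t i) = -1 := by
      rcases he (t i) with h | h <;> rcases he (t j) with h' | h' <;> rw [h, h'] <;> norm_num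
    rw [← ht.act _ _ _ hs] at h5
    have h6 := t.injective h5
    have := uniq (n := n) (r := j) (r' := i) (e := 1) (k := 0) hj.1 hj.2 hi.1 hi.2
      (Or.inl rfl) hs (by rw [← h6]; ring)
    exact this.1.symm
  have himg : Finset.image (fun i => r (t i)) (Finset.Icc (1 : ℤ) n) = Finset.Icc (1 : ℤ) n := by
    apply Finset.eq_of_subset_of_card_le
    · intro x hx
      obtain ⟨i, hi, rfl⟩ := Finset.mem_image.mp hx
      exact hmaps i hi
    · rw [Finset.card_image_of_injOn hinj]
  calc ∑ i ∈ Finset.Icc (1 : ℤ) n, f (t i) = ∑ i ∈ Finset.Icc (1 : ℤ) n, f (r (t i)) :=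
        Finset.sum_congr rfl fun i _ => hf _
    _ = ∑ i ∈ Finset.image (fun i => r (t i)) (Finset.Icc (1 : ℤ) n), f i := by
        rw [Finset.sum_image hinj]
    _ = _ := by rw [himg]

/-- subadditivity -/
lemma tvd_mul (hw : Aff n w) (ht : Aff n t) :
    tvd n w = ∑ i ∈ Finset.Icc (1 : ℤ) n, |w (t i) - t i| := by
  rw [tvd]
  refine (reindex ht (fun x => |w x - x|) ?_ ?_).symm
  · intro x
    rw [hw.1, ← abs_neg]
    congr 1; ring
  · intro x
    rw [hw.2]
    congr 1; ring

/-- additivity -/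
lemma addit (hw : Aff n w) (ht : Aff n t) (htt : ∀ x, t (t x) = x)
    (h : ∀ i ∈ Finset.Icc (1 : ℤ) n, |w i - t i| + |t i - i| = |w i - i|) :
    tvd n (w * t) + tvd n t = tvd n w := by
  rw [tvd_mul (hw.mul ht) ht]
  simp only [tvd, Equiv.Perm.mul_apply, htt]
  rw [← Finset.sum_add_distrib]
  exact Finset.sum_congr rfl h

end Pool.Agent.X251.BC
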