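import Pool.Agent.X251.BC.Up

set_option autoImplicit false

namespace Pool.Agent.X251.BC

variable {n : ℕ} {w t u : Equiv.Perm ℤ}

/-- a position with `w a > a` followed by one with `w c < c` -/
lemma adj {a c : ℤ} (hac : a < c) (ha : a < w a) (hc : w c < c)
    (h : ∀ x : ℤ, a < x → x < c → w x ≤ x) :
    ∃ b : ℤ, a < b ∧ b ≤ c ∧ w b < b ∧ (∀ x : ℤ, a < x → x < b → w x = x) ∧ b ≤ w a ∧ w b ≤ a := by
  obtain ⟨b, hb1, hb2, hb3, hb4⟩ := first_in (fun x => w x < x) (a := a + 1) (b := c)
    ⟨c, by omega, le_refl _, hc⟩
  have hfix : ∀ x : ℤ, a < x → x < b → w x = x := by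
    intro x hx hx'
    have h1 := h x hx (by omega)
    have h2 := hb4 x (by omega) hx'
    omega
  refine ⟨b, by omega, hb2, hb3, hfix, ?_, ?_⟩
  · by_contra hcon
    have h3 := hfix (w a) ha (by omega)
    have := w.injective h3
    omega
  · by_contra hcon
    have h3 := hfix (w b) (by omega) hb3
    have := w.injective h3
    omega

/-- the case of an odd number of signs before -/
lemma odd_case (hw : Aff n w) {k c : ℤ} (hk : 0 ≤ k) (hkc : k < c) (hc : c ≤ n) (hwc : w c < 0)
    (hpos : ∀ x : ℤ, k < x → x < c → 0 < w x) (hex : ∃ x : ℤ, k < x ∧ x < c ∧ x < w x)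
    (hodd : ¬ Even (neg w k)) (hG : ¬ Good w (c - 1)) : Step n w := by
  obtain ⟨x0, hx1, hx2, hx3⟩ := hex
  obtain ⟨a, ha1, ha2, ha3, ha4⟩ := last_in (fun x => x < w x) (a := k + 1) (b := c - 1)
    ⟨x0, by omega, by omega, hx3⟩
  have hle : ∀ x : ℤ, a < x → x < c → w x ≤ x := by
    intro x hx hx'
    have := ha4 x hx (by omega)
    omega
  have hneg : ∀ m : ℤ, k ≤ m → m < c → neg w m = neg w k := by
    intro m hm hm'
    exact neg_const hm fun x hx hx' => hpos x hx (by omega)
  by_cases hac : c ≤ w a
  · refine S1 hw (a := a) (b := c) (by omega) (by omega) hc hac (by omega) ?_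
    intro m hm hm' _ _
    rw [if_pos hwc, hneg m (by omega) hm']
    rw [Nat.not_even_iff_odd] at hodd
    exact hodd.add_odd odd_one
  · obtain ⟨b, hb1, hb2, hb3, hb4, hb5, hb6⟩ := adj (w := w) (a := a) (c := c) (by omega) ha3
      (by omega) hle
    refine S1 hw (a := a) (b := b) (by omega) hb1 (by omega) hb5 hb6 ?_
    intro m hm hm' hx _
    exfalso
    apply hG
    refine good_of_window hw (by omega) fun x h1 h2 => ?_
    by_cases hxa : x = a
    · rw [hxa, abs_of_pos (by omega)]; omega
    · by_cases hxm : x ≤ m
      · have := hx x h1 hxm hxa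
        omega
      · have h3 := hpos x (by omega) (by omega)
        have h4 := hle x (by omega) (by omega)
        rw [abs_of_pos h3]
        omega

/-- the case `J ≠ ∅` -/
lemma case_A (hB : InB n w) (hJ : (J n w).Nonempty) : Step n w := by
  have hw := hB.1
  obtain ⟨j, hj, hmax⟩ : ∃ j ∈ J n w, ∀ i ∈ J n w, i ≤ j :=
    ⟨(J n w).max' hJ, Finset.max'_mem _ _, fun i hi => Finset.le_max' _ _ hi⟩
  obtain ⟨hjn, hj1, hg, hodd⟩ := mem_J.mp hj
  have hgw : ∀ x : ℤ, 1 ≤ x → x ≤ j → |w x| ≤ j := fun x hx hx' =>
    hg x (by rw [abs_of_pos (by omega)]; exact hx')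
  by_cases h1 : w ((j : ℤ) + 1) < 0
  · exact S0 hw hj h1
  have h1' : 0 < w ((j : ℤ) + 1) := by
    have := ne_zero hw (i := (j : ℤ) + 1) (by omega)
    omega
  by_cases h2 : ∃ c : ℤ, (j : ℤ) + 1 ≤ c ∧ c ≤ n ∧ w c < 0
  · obtain ⟨c, hc1, hc2, hc3, hc4⟩ := first_in (fun x => w x < 0) h2
    have hjc : (j : ℤ) + 1 < c := by
      rcases eq_or_lt_of_le hc1 with h | h
      · rw [← h] at hc3; omega
      · exact h
    have hpos : ∀ x : ℤ, (j : ℤ) < x → x < c → 0 < w x := by
      intro x hx hx'
      have := hc4 x (by omega) hx'
      have := ne_zero hw (i := x) (by omega)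
      omega
    have hG : ¬ Good w (c - 1) := by
      intro hG
      have : (c - 1).toNat ∈ J n w := by
        rw [mem_J]
        have h3 : (((c - 1).toNat : ℕ) : ℤ) = c - 1 := Int.toNat_of_nonneg (by omega)
        refine ⟨by omega, by omega, by rw [h3]; exact hG, ?_⟩
        rw [h3, neg_const (k := (j : ℤ)) (by omega) fun x hx hx' => hpos x hx (by omega)]
        exact hodd
      have := hmax _ this
      omega
    refine odd_case hw (k := j) (c := c) (by omega) (by omega) hc2 hc3 hpos ?_ hodd hG
    by_contra hcon
    push Not at hcon
    apply hG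
    refine good_of_window hw (by omega) fun x hx hx' => ?_
    by_cases hxj : x ≤ j
    · have := hgw x hx hxj
      omega
    · have h3 := hpos x (by omega) (by omega)
      have h4 := hcon x (by omega) (by omega)
      rw [abs_of_pos h3]; omega
  · push Not at h2
    have hpos : ∀ x : ℤ, (j : ℤ) < x → x ≤ n → 0 < w x := by
      intro x hx hx'
      have := h2 x (by omega) hx'
      have := ne_zero hw (i := x) (by omega)
      omega
    have hneg : ∀ m : ℤ, j ≤ m → m ≤ n → neg w m = neg w j := by
      intro m hm hm'
      exact neg_const hm fun x hx hx' => hpos x hx (by omega)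
    obtain ⟨i, hi1, hi2, hi3⟩ := exists_big hB (by rw [hneg n (by omega) (le_refl _)]; exact hodd) (by
      intro x hx hx'
      by_cases hxj : x ≤ j
      · have := (abs_le.mp (hgw x hx hxj)).1
        omega
      · have := hpos x (by omega) hx'
        omega)
    have hij : (j : ℤ) < i := by
      by_contra hcon
      have := (abs_le.mp (hgw i hi1 (by omega))).2
      omega
    refine S3 hw hi1 hi2 (by omega) ?_
    intro m hm hm' _ _
    rw [if_pos hi3, hneg m (by omega) hm'.le]
    rw [Nat.not_even_iff_odd] at hodd
    exact hodd.add_odd odd_one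

/-- the case `J = ∅` -/
lemma case_B (hB : InB n w) (hJ : J n w = ∅) (hne : w ≠ 1) : Step n w := by
  have hw := hB.1
  have hN := Npos n
  have hnz : ∀ x : ℤ, 1 ≤ x → w x ≠ 0 := fun x hx => ne_zero hw (by omega)
  have noJ : ∀ m : ℤ, 1 ≤ m → m < n → Good w m → ¬ Even (neg w m) → False := by
    intro m hm hm' hG hodd
    have h3 : ((m.toNat : ℕ) : ℤ) = m := Int.toNat_of_nonneg (by omega)
    have : m.toNat ∈ J n w := by
      rw [mem_J]
      exact ⟨by omega, by omega, by rw [h3]; exact hG, by rw [h3]; exact hodd⟩
    rw [hJ] at this
    exact absurd this (Finset.notMem_empty _)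
  obtain ⟨p, hp1, hp2, hp3, hp4⟩ := first_in (fun x => w x ≠ x) (exists_move hw hne)
  have hfix : ∀ x : ℤ, 1 ≤ x → x < p → w x = x := fun x hx hx' => by
    by_contra hcon
    exact hp4 x hx hx' hcon
  by_cases hwp : w p < 0
  · -- B2
    have hn1 : neg w p = 1 := neg_one' hp1 hwp fun x hx hx' => by
      rw [hfix x hx hx']; omega
    have hlow : ∀ x : ℤ, x ≠ 0 → (∀ y : ℤ, 1 ≤ y → y < p → x ≠ -y) → w x < 0 → w x ≤ -p := by
      intro x hx0 hx hwx
      by_contra hcon
      have h1 := hfix (-(w x)) (by omega) (by omega)
      rw [hw.1, neg_inj] at h1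
      have h2 := w.injective h1
      exact hx (-(w x)) (by omega) (by omega) (by omega)
    by_cases h2 : ∃ c : ℤ, p + 1 ≤ c ∧ c ≤ n ∧ w c < 0
    · obtain ⟨c, hc1, hc2, hc3, hc4⟩ := first_in (fun x => w x < 0) h2
      have hpos : ∀ x : ℤ, p < x → x < c → 0 < w x := by
        intro x hx hx'
        have := hc4 x (by omega) hx'
        have := hnz x (by omega)
        omega
      have hneg : ∀ m : ℤ, p ≤ m → m < c → neg w m = 1 := by
        intro m hm hm'
        rw [← hn1]
        exact neg_const hm fun x hx hx' => hpos x hx (by omega)
      by_cases h3 : ∃ x : ℤ, p < x ∧ x < c ∧ x < w x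
      · refine odd_case hw (k := p) (c := c) (by omega) (by omega) hc2 hc3 hpos h3
          (by rw [hn1]; decide) ?_
        intro hG
        exact noJ (c - 1) (by omega) (by omega) hG (by rw [hneg _ (by omega) (by omega)]; decide)
      · push Not at h3
        by_cases h4 : w p ≤ -c
        · refine S2 hw hp1 (by omega) hc2 h4 (hlow c (by omega) (fun y hy hy' => by omega) hc3) ?_
          intro m hm hm'
          rw [hneg m hm hm']; decide
        · exfalso
          refine noJ (c - 1) (by omega) (by omega) ?_ (by rw [hneg _ (by omega) (by omega)]; decide)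
          refine good_of_window hw (by omega) fun x hx hx' => ?_
          rcases lt_trichotomy x p with h | h | h
          · rw [hfix x hx h, abs_of_pos (by omega)]; exact hx'
          · rw [h, abs_of_neg hwp]; omega
          · have h5 := hpos x h (by omega)
            have h6 := h3 x h (by omega)
            rw [abs_of_pos h5]; omega
    · push Not at h2
      have hpos : ∀ x : ℤ, p < x → x ≤ n → 0 < w x := by
        intro x hx hx'
        have := h2 x (by omega) hx'
        have := hnz x (by omega)
        omega
      have hneg : ∀ m : ℤ, p ≤ m → m ≤ n → neg w m = 1 := by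
        intro m hm hm'
        rw [← hn1]
        exact neg_const hm fun x hx hx' => hpos x hx (by omega)
      by_cases h3 : -(2 * n + 2 : ℤ) < w p
      · obtain ⟨i, hi1, hi2, hi3⟩ := exists_big hB (by rw [hneg n hp2 (le_refl _)]; decide) (by
          intro x hx hx'
          rcases lt_trichotomy x p with h | h | h
          · rw [hfix x hx h]; omega
          · rw [h]; exact h3
          · have := hpos x h hx'
            omega)
        have hip : p < i := by
          rcases lt_trichotomy i p with h | h | h
          · rw [hfix i hi1 h] at hi3; omega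
          · rw [h] at hi3; omega
          · exact h
        refine S3 hw hi1 hi2 (by omega) ?_
        intro m hm hm' _ _
        rw [if_pos hi3, hneg m (by omega) hm'.le]
        decide
      · have h4 : w p ≤ -(2 * n + 2) - p := by
          have h5 : w (p + (2 * n + 2)) = w p + (2 * n + 2) := hw.2 p
          have h6 : w p ≠ -2 * (n + 1) := val_ne hw hp1 hp2 (-2)
          have := hlow (p + (2 * n + 2)) (by omega) (fun y hy hy' => by omega) (by
            rw [h5]; omega)
          omega
        exact S4 hw hp1 hp2 h4 fun m hm hm' => by rw [hneg m hm hm'.le]; decide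
  · -- B1
    have hwp' : p < w p := by
      have h0 := hnz p hp1
      by_contra hcon
      have h1 := hfix (w p) (by omega) (by omega)
      have := w.injective h1
      exact hp3 this
    by_cases h1 : ∃ b : ℤ, 1 ≤ b ∧ b ≤ n ∧ w b < 0
    · obtain ⟨bs, hb1, hb2, hb3, hb4⟩ := first_in (fun x => w x < 0) h1
      have hpos0 : ∀ x : ℤ, 1 ≤ x → x < bs → 0 < w x := by
        intro x hx hx'
        have := hb4 x hx hx'
        have := hnz x hx
        omega
      have hneg0 : ∀ m : ℤ, m < bs → neg w m = 0 := fun m hm =>
        neg_zero' fun x hx hx' => hpos0 x hx (by omega)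
      have hpb : p < bs := by
        rcases lt_trichotomy bs p with h | h | h
        · rw [hfix bs hb1 h] at hb3; omega
        · rw [h] at hb3; omega
        · exact h
      obtain ⟨a, ha1, ha2, ha3, ha4⟩ := last_in (fun x => x < w x) (a := p) (b := bs - 1)
        ⟨p, le_refl _, by omega, hwp'⟩
      obtain ⟨b, hbb1, hbb2, hbb3, hbb4, hbb5, hbb6⟩ := adj (w := w) (a := a) (c := bs) (by omega)
        ha3 (by omega) (fun x hx hx' => by
          have := ha4 x hx (by omega)
          omega)
      by_cases hbs : b < bs
      · refine S1 hw (a := a) (b := b) (by omega) hbb1 (by omega) hbb5 hbb6 ?_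
        intro m hm hm' _ _
        have := hpos0 b (by omega) hbs
        rw [if_neg (by omega), hneg0 m (by omega)]
        decide
      have hbe : b = bs := by omega
      subst hbe
      by_cases hm0 : ∃ m : ℤ, a ≤ m ∧ m < b ∧ (∀ x : ℤ, 1 ≤ x → x ≤ m → x ≠ a → |w x| ≤ m) ∧
          |w b| ≤ m
      swap
      · refine S1 hw (a := a) (b := b) (by omega) hbb1 (by omega) hbb5 hbb6 ?_
        intro m hm hm' h5 h6
        exact absurd ⟨m, hm, hm', h5, h6⟩ hm0
      obtain ⟨m0, hm1, hm2, hm3, hm4⟩ := hm0
      have hn1 : neg w b = 1 := neg_one' hb1 hb3 hpos0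
      -- pigeonhole
      have hph : ∀ y m : ℤ, b < y → a ≤ m → m < b →
          (∀ x : ℤ, 1 ≤ x → x ≤ m → x ≠ a → |w x| ≤ m) → |w y| ≤ m → False := by
        intro y m hy hma hmb hx hwy
        have hcard := ph hw (M := max m m0) (by omega)
          (insert y (insert b ((Finset.Icc (1 : ℤ) (max m m0)).erase a))) (by
            intro x hxS
            rw [Finset.mem_insert, Finset.mem_insert, Finset.mem_erase, Finset.mem_Icc] at hxS
            rcases hxS with rfl | rfl | hxS
            · exact ⟨by omega, le_max_of_le_left hwy⟩
            · exact ⟨by omega, le_max_of_le_right hm4⟩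
            · refine ⟨hxS.2.1, ?_⟩
              rcases le_max_iff.mp hxS.2.2 with h | h
              · exact le_max_of_le_left (hx x hxS.2.1 h hxS.1)
              · exact le_max_of_le_right (hm3 x hxS.2.1 h hxS.1))
        have hlt : max m m0 < b := max_lt hmb hm2
        rw [Finset.card_insert_of_notMem, Finset.card_insert_of_notMem,
          Finset.card_erase_of_mem, Int.card_Icc] at hcard
        · have : a ≤ max m m0 := le_max_of_le_left hma
          omega
        · exact Finset.mem_Icc.mpr ⟨by omega, le_max_of_le_left hma⟩
        · rw [Finset.mem_erase, Finset.mem_Icc]; omega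
        · rw [Finset.mem_insert, Finset.mem_erase, Finset.mem_Icc]; omega
      by_cases h2 : ∃ c : ℤ, b + 1 ≤ c ∧ c ≤ n ∧ w c < 0
      · obtain ⟨c, hc1, hc2, hc3, hc4⟩ := first_in (fun x => w x < 0) h2
        have hpos : ∀ x : ℤ, b < x → x < c → 0 < w x := by
          intro x hx hx'
          have := hc4 x (by omega) hx'
          have := hnz x (by omega)
          omega
        have hneg : ∀ m : ℤ, b ≤ m → m < c → neg w m = 1 := by
          intro m hm hm'
          rw [← hn1]
          exact neg_const hm fun x hx hx' => hpos x hx (by omega)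
        have hG : ¬ Good w (c - 1) := fun hG =>
          noJ (c - 1) (by omega) (by omega) hG (by rw [hneg _ (by omega) (by omega)]; decide)
        by_cases h3 : ∃ x : ℤ, b < x ∧ x < c ∧ x < w x
        · exact odd_case hw (k := b) (c := c) (by omega) (by omega) hc2 hc3 hpos h3
            (by rw [hn1]; decide) hG
        · push Not at h3
          by_cases h4 : c ≤ w a
          · refine S1 hw (a := a) (b := c) (by omega) (by omega) hc2 h4 (by omega) ?_
            intro m hm hm' h5 h6
            by_cases hmb : m < b
            · exact (hph c m (by omega) hm hmb h5 h6).elim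
            · rw [if_pos hc3, hneg m (by omega) hm']
              decide
          · exfalso
            apply hG
            refine good_of_window hw (by omega) fun x hx hx' => ?_
            by_cases hxa : x = a
            · rw [hxa, abs_of_pos (by omega)]; omega
            by_cases hxm : x ≤ m0
            · have := hm3 x hx hxm hxa
              omega
            rcases lt_trichotomy x b with h | h | h
            · rw [hbb4 x (by omega) h, abs_of_pos (by omega)]; exact hx'
            · rw [h]; omega
            · have h5 := hpos x h (by omega)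
              have h6 := h3 x h (by omega)
              rw [abs_of_pos h5]; omega
      · push Not at h2
        have hpos : ∀ x : ℤ, b < x → x ≤ n → 0 < w x := by
          intro x hx hx'
          have := h2 x (by omega) hx'
          have := hnz x (by omega)
          omega
        have hneg : ∀ m : ℤ, b ≤ m → m ≤ n → neg w m = 1 := by
          intro m hm hm'
          rw [← hn1]
          exact neg_const hm fun x hx hx' => hpos x hx (by omega)
        obtain ⟨i, hi1, hi2, hi3⟩ := exists_big hB (by rw [hneg n hb2 (le_refl _)]; decide) (by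
          intro x hx hx'
          rcases lt_trichotomy x b with h | h | h
          · have := hpos0 x hx h
            omega
          · have := (abs_le.mp hm4).1
            rw [h]; omega
          · have := hpos x h hx'
            omega)
        refine S3 hw hi1 hi2 (by omega) ?_
        intro m hm hm' h5 h6
        by_cases hmb : m < b
        · exfalso
          have hia : i = a := by
            by_contra hia
            by_cases h7 : a < i
            · have := hbb4 i h7 (by omega)
              omega
            · have := (abs_le.mp (hm3 i hi1 (by omega) hia)).2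
              omega
          subst hia
          refine hph (2 * n + 2 - i) m (by omega) hm hmb h5 ?_
          rw [show 2 * (n : ℤ) + 2 - i = -i + (2 * n + 2) by ring, hw.2, hw.1,
            show -w i + (2 * (n : ℤ) + 2) = 2 * n + 2 - w i by ring]
          exact h6
        · rw [if_pos hi3, hneg m (by omega) hm'.le]
          decide
    · push Not at h1
      have hpos : ∀ x : ℤ, 1 ≤ x → x ≤ n → 0 < w x := by
        intro x hx hx'
        have := h1 x hx hx'
        have := hnz x hx
        omega
      have hneg : ∀ m : ℤ, m ≤ n → neg w m = 0 := fun m hm =>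
        neg_zero' fun x hx hx' => hpos x hx (by omega)
      by_cases h2 : ∃ c : ℤ, p < c ∧ c ≤ n ∧ w c < c
      · obtain ⟨c, hc1, hc2, hc3⟩ := h2
        obtain ⟨a, ha1, ha2, ha3, ha4⟩ := last_in (fun x => x < w x) (a := p) (b := c - 1)
          ⟨p, le_refl _, by omega, hwp'⟩
        obtain ⟨b, hbb1, hbb2, hbb3, hbb4, hbb5, hbb6⟩ := adj (w := w) (a := a) (c := c) (by omega)
          ha3 hc3 (fun x hx hx' => by
            have := ha4 x hx (by omega)
            omega)
        refine S1 hw (a := a) (b := b) (by omega) hbb1 (by omega) hbb5 hbb6 ?_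
        intro m hm hm' _ _
        have := hpos b (by omega) (by omega)
        rw [if_neg (by omega), hneg m (by omega)]
        decide
      · push Not at h2
        obtain ⟨a, ha1, ha2, ha3, ha4⟩ := last_in (fun x => x < w x) (a := p) (b := n)
          ⟨p, le_refl _, hp2, hwp'⟩
        have hfixa : ∀ x : ℤ, a < x → x ≤ n → w x = x := by
          intro x hx hx'
          have h3 := ha4 x hx hx'
          have h4 := h2 x (by omega) hx'
          omega
        have hbig : 2 * n + 2 - a ≤ w a := by
          by_contra hcon
          have h3 : w a ≠ 1 * (n + 1) := val_ne hw (by omega) ha2 1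
          have h4 : ∀ x : ℤ, a < x → x ≤ n → w a ≠ x := by
            intro x hx hx' h
            rw [← hfixa x hx hx'] at h
            have := w.injective h
            omega
          have h5 := h4 (w a) ha3
          have h6 : (n : ℤ) + 1 < w a := by
            by_contra hcc
            exact h5 (by omega) rfl
          have h7 := hfixa (2 * n + 2 - w a) (by omega) (by omega)
          rw [show 2 * (n : ℤ) + 2 - w a = -w a + (2 * n + 2) by ring, hw.2, hw.1] at h7
          have h8 : w (w a) = w a := by linarith
          have := w.injective h8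
          omega
        refine S3 hw (by omega) ha2 hbig ?_
        intro m hm hm' h5 h6
        rw [hneg m (by omega)]
        by_cases h7 : (2 * n + 2 : ℤ) < w a
        · exfalso
          have h8 := (inB_iff hw).mp hB
          have h9 : par n w = 1 := by
            rw [par, Finset.sum_eq_single a]
            · rw [abs_le] at h6
              rw [show w a = (w a - (2 * n + 2)) + 1 * (2 * n + 2) by ring,
                Int.add_mul_ediv_right _ _ hN.ne', Int.ediv_eq_zero_of_lt (by omega) (by omega)]
              norm_num
            · intro x hx hxa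
              rw [Finset.mem_Icc] at hx
              have h10 := hpos x hx.1 hx.2
              by_cases hxm : x ≤ m
              · have := (abs_le.mp (h5 x hx.1 hxm hxa)).2
                exact Int.ediv_eq_zero_of_lt (by omega) (by omega)
              · rw [hfixa x (by omega) hx.2]
                exact Int.ediv_eq_zero_of_lt (by omega) (by omega)
            · intro hcon
              exact absurd (Finset.mem_Icc.mpr ⟨by omega, ha2⟩) hcon
          rw [h9] at h8
          exact absurd h8 (by decide)
        · rw [if_neg h7]
          decide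

lemma step (hB : InB n w) (hne : w ≠ 1) : Step n w := by
  by_cases hJ : J n w = ∅
  · exact case_B hB hJ hne
  · exact case_A hB (Finset.nonempty_iff_ne_empty.mpr hJ)

end Pool.Agent.X251.BC
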