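import Pool.Agent.X251.BC.Par

set_option autoImplicit false

namespace Pool.Agent.X251.BC

variable {n : ℕ} {w t u : Equiv.Perm ℤ}

/-- `w` maps `[-j, j]` into itself -/
def Good (w : Equiv.Perm ℤ) (j : ℤ) : Prop := ∀ x : ℤ, |x| ≤ j → |w x| ≤ j

/-- the number of negative values on `[1, j]` -/
noncomputable def neg (w : Equiv.Perm ℤ) (j : ℤ) : ℕ :=
  ((Finset.Icc (1 : ℤ) j).filter (fun i => w i < 0)).card

open Classical in
/-- the places where `w` decomposes with an odd number of signs before -/
noncomputable def J (n : ℕ) (w : Equiv.Perm ℤ) : Finset ℕ :=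
  (Finset.range n).filter (fun j => 1 ≤ j ∧ Good w j ∧ ¬ Even (neg w j))

/-- twice the right hand side of the formula -/
noncomputable def R (n : ℕ) (w : Equiv.Perm ℤ) : ℤ := tvd n w + 2 * ((J n w).card : ℤ)

lemma mem_J {j : ℕ} : j ∈ J n w ↔ j < n ∧ 1 ≤ j ∧ Good w j ∧ ¬ Even (neg w j) := by
  classical
  rw [J, Finset.mem_filter, Finset.mem_range]

lemma Good.inv {j : ℤ} (h : Good u j) {x : ℤ} (hx : |u x| ≤ j) : |x| ≤ j := by
  have hm : Set.MapsTo u (Set.Icc (-j) j) (Set.Icc (-j) j) := by
    intro y hy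
    exact abs_le.mp (h y (abs_le.mpr hy))
  have := ((Set.finite_Icc (-j) j).injOn_iff_bijOn_of_mapsTo hm).mp u.injective.injOn
  obtain ⟨y, hy, hxy⟩ := this.surjOn (abs_le.mp hx)
  have := u.injective hxy
  rw [← this]
  exact abs_le.mpr hy

lemma ne_zero (hw : Aff n w) {i : ℤ} (hi : i ≠ 0) : w i ≠ 0 := by
  intro h
  apply hi
  apply w.injective
  rw [h, hw.zero]

/-- the sign on `[1, j]` -/
noncomputable def sj (w : Equiv.Perm ℤ) (j : ℤ) : ℤ := ∏ i ∈ Finset.Icc (1 : ℤ) j, (w i).sign

lemma sj_eq (hw : Aff n w) (j : ℤ) : sj w j = (-1) ^ (neg w j) := by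
  rw [sj, neg, ← Finset.prod_const, Finset.prod_filter]
  refine Finset.prod_congr rfl fun i hi => ?_
  rw [Finset.mem_Icc] at hi
  split_ifs with h
  · exact Int.sign_eq_neg_one_of_neg h
  · have := ne_zero hw (i := i) (by omega)
    exact Int.sign_eq_one_of_pos (by omega)

lemma even_neg_iff (hw : Aff n w) (j : ℤ) : Even (neg w j) ↔ sj w j = 1 := by
  rw [sj_eq hw]
  constructor
  · intro h; exact h.neg_one_pow
  · intro h
    by_contra hcon
    rw [Nat.not_even_iff_odd] at hcon
    rw [hcon.neg_one_pow] at h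
    norm_num at h

lemma sj_mul (hw : Aff n w) (ht : Aff n t) {j : ℤ} (hg : Good t j) :
    sj (w * t) j = sj w j * sj t j := by
  classical
  have h1 : ∀ i ∈ Finset.Icc (1 : ℤ) j, ((w * t) i).sign = (w |t i|).sign * (t i).sign := by
    intro i hi
    rw [Finset.mem_Icc] at hi
    rw [Equiv.Perm.mul_apply]
    have h0 := ne_zero ht (i := i) (by omega)
    rcases lt_or_gt_of_ne h0 with h | h
    · rw [abs_of_neg h, hw.1, Int.sign_eq_neg_one_of_neg h, Int.sign_neg]
      ring
    · rw [abs_of_pos h, Int.sign_eq_one_of_pos h, mul_one]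
  rw [sj, Finset.prod_congr rfl h1, Finset.prod_mul_distrib]
  congr 1
  have hinj : Set.InjOn (fun i => |t i|) (Finset.Icc (1 : ℤ) j : Finset ℤ) := by
    intro a ha b hb hab
    simp only [Finset.coe_Icc, Set.mem_Icc] at ha hb
    simp only at hab
    rcases abs_eq_abs.mp hab with h | h
    · exact t.injective h
    · rw [← ht.1] at h
      have := t.injective h
      omega
  have himg : Finset.image (fun i => |t i|) (Finset.Icc (1 : ℤ) j) = Finset.Icc (1 : ℤ) j := by
    apply Finset.eq_of_subset_of_card_le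
    · intro x hx
      obtain ⟨i, hi, rfl⟩ := Finset.mem_image.mp hx
      rw [Finset.mem_Icc] at hi ⊢
      have h0 := ne_zero ht (i := i) (by omega)
      have h1 := abs_pos.mpr h0
      exact ⟨by omega, hg i (by rw [abs_of_pos (by omega)]; exact hi.2)⟩
    · rw [Finset.card_image_of_injOn hinj]
  calc ∏ i ∈ Finset.Icc (1 : ℤ) j, (w |t i|).sign
      = ∏ i ∈ Finset.image (fun i => |t i|) (Finset.Icc (1 : ℤ) j), (w i).sign := by
        rw [Finset.prod_image hinj]
    _ = _ := by rw [himg, sj]

lemma transp_invol {a b : ℤ} (h : IsTransp n a b t) (x : ℤ) : t (t x) = x := by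
  by_cases hx : ∀ e k : ℤ, (e = 1 ∨ e = -1) →
    x ≠ e * a + k * (2 * n + 2) ∧ x ≠ e * b + k * (2 * n + 2)
  · rw [h.2 x hx, h.2 x hx]
  · push Not at hx
    obtain ⟨e, k, he, hx⟩ := hx
    by_cases h1 : x = e * a + k * (2 * n + 2)
    · rw [h1, (h.1 e k he).1, (h.1 e k he).2]
    · rw [hx h1, (h.1 e k he).2, (h.1 e k he).1]

lemma transp_symm {a b : ℤ} (h : IsTransp n a b t) : IsTransp n b a t :=
  ⟨fun e k he => ⟨(h.1 e k he).2, (h.1 e k he).1⟩, fun x hx => h.2 x fun e k he =>
    ⟨(hx e k he).2, (hx e k he).1⟩⟩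

lemma transp_act {a b e k : ℤ} (he : e = 1 ∨ e = -1) (h : IsTransp n a b t) :
    IsTransp n (e * a + k * (2 * n + 2)) (e * b + k * (2 * n + 2)) t := by
  have hee : e * e = 1 := by rcases he with h | h <;> rw [h] <;> norm_num
  constructor
  · intro e' k' he'
    have hs : e' * e = 1 ∨ e' * e = -1 := by
      rcases he with h | h <;> rcases he' with h' | h' <;> rw [h, h'] <;> norm_num
    have := h.1 (e' * e) (e' * k + k') hs
    rw [show e' * (e * a + k * (2 * n + 2)) + k' * (2 * n + 2) =
      e' * e * a + (e' * k + k') * (2 * n + 2) by ring,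
      show e' * (e * b + k * (2 * n + 2)) + k' * (2 * n + 2) =
      e' * e * b + (e' * k + k') * (2 * n + 2) by ring]
    exact this
  · intro x hx
    refine h.2 x fun e' k' he' => ?_
    have hs : e' * e = 1 ∨ e' * e = -1 := by
      rcases he with h | h <;> rcases he' with h' | h' <;> rw [h, h'] <;> norm_num
    have := hx (e' * e) (k' - e' * e * k) hs
    rw [show e' * e * (e * a + k * (2 * n + 2)) + (k' - e' * e * k) * (2 * n + 2) =
        e' * a + k' * (2 * n + 2) by linear_combination (e' * a) * hee,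
      show e' * e * (e * b + k * (2 * n + 2)) + (k' - e' * e * k) * (2 * n + 2) =
        e' * b + k' * (2 * n + 2) by linear_combination (e' * b) * hee] at this
    exact this

/-- `t = ⟨(x  t x)⟩` for every `x` which is moved -/
lemma transp_move {a b x : ℤ} (h : IsTransp n a b t) (hx : t x ≠ x) :
    IsTransp n x (t x) t := by
  by_cases hx2 : ∀ e k : ℤ, (e = 1 ∨ e = -1) →
    x ≠ e * a + k * (2 * n + 2) ∧ x ≠ e * b + k * (2 * n + 2)
  · exact absurd (h.2 x hx2) hx
  · push Not at hx2
    obtain ⟨e, k, he, hx3⟩ := hx2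
    by_cases h1 : x = e * a + k * (2 * n + 2)
    · have := transp_act (k := k) he h
      rw [← h1, ← (h.1 e k he).1, ← h1] at this
      exact this
    · have h2 := hx3 h1
      have := transp_act (k := k) he (transp_symm h)
      rw [← h2, ← (h.1 e k he).2, ← h2] at this
      exact this

lemma sj_refl (ht : t ∈ Refl n) {j : ℤ} (hjn : j ≤ n) (hg : Good t j) : sj t j = 1 := by
  obtain ⟨hB, a, b, hab, htr⟩ := ht
  have hA := hB.1
  by_cases hid : ∀ i ∈ Finset.Icc (1 : ℤ) j, t i = i
  · rw [sj]
    apply Finset.prod_eq_one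
    intro i hi
    rw [hid i hi]
    rw [Finset.mem_Icc] at hi
    exact Int.sign_eq_one_of_pos (by omega)
  · push Not at hid
    obtain ⟨i, hi, hti⟩ := hid
    rw [Finset.mem_Icc] at hi
    have hT := transp_move htr hti
    set i' := t i with hi'
    have h0 : i' ≠ 0 := ne_zero hA (by omega)
    have h1 : |i'| ≤ j := hg i (by rw [abs_of_pos (by omega)]; exact hi.2)
    have h2 : 0 < |i'| := abs_pos.mpr h0
    -- the sign of `i'`
    obtain ⟨e, he, hee⟩ : ∃ e : ℤ, (e = 1 ∨ e = -1) ∧ i' = e * |i'| := by
      rcases lt_or_gt_of_ne h0 with h | h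
      · exact ⟨-1, Or.inr rfl, by rw [abs_of_neg h]; ring⟩
      · exact ⟨1, Or.inl rfl, by rw [abs_of_pos h]; ring⟩
    have hee2 : e * e = 1 := by rcases he with h | h <;> rw [h] <;> norm_num
    -- other points are fixed
    have hfix : ∀ x : ℤ, 1 ≤ x → x ≤ n → x ≠ i → x ≠ |i'| → t x = x := by
      intro x hx1 hx2 hxi hxi'
      refine hT.2 x fun e' k' he' => ⟨?_, ?_⟩
      · intro hcon
        exact hxi (uniq (n := n) (e := 1) (k := 0) hx1 hx2 hi.1 (by omega) (Or.inl rfl) he'
          (by rw [← hcon]; ring)).1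
      · intro hcon
        have hs : e' * e = 1 ∨ e' * e = -1 := by
          rcases he with h | h <;> rcases he' with h' | h' <;> rw [h, h'] <;> norm_num
        refine hxi' (uniq (n := n) (r' := |i'|) (e := 1) (k := 0) (e' := e' * e) (k' := k') hx1 hx2
          (by omega) (by omega) (Or.inl rfl) hs ?_).1
        rw [mul_assoc, ← hee, ← hcon]; ring
    by_cases hc : |i'| = i
    · -- `t i = -i`, impossible
      exfalso
      have hval : i' = -i := by
        rcases he with h | h
        · rw [h, hc, one_mul] at hee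
          exact absurd hee hti
        · rw [h, hc] at hee
          rw [hee]; ring
      have hE := (inB_iff hA).mp hB
      have : par n t = -1 := by
        rw [par, Finset.sum_eq_single i]
        · rw [← hi', hval]
          have hN := Npos n
          rw [show -i = (2 * n + 2 - i) + (-1) * (2 * n + 2) by ring,
            Int.add_mul_ediv_right _ _ hN.ne', Int.ediv_eq_zero_of_lt (by omega) (by omega)]
          norm_num
        · intro x hx hxi
          rw [Finset.mem_Icc] at hx
          rw [hfix x hx.1 hx.2 hxi (by rw [hc]; exact hxi)]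
          exact Int.ediv_eq_zero_of_lt (by omega) (by omega)
        · intro hcon
          exact absurd (Finset.mem_Icc.mpr ⟨hi.1, by omega⟩) hcon
      rw [this] at hE
      exact absurd hE (by decide)
    · rw [sj, Finset.prod_eq_mul i |i'| (Ne.symm hc)]
      · rw [← hi']
        have h3 : t |i'| = e * i := by
          have h4 : |i'| = e * i' + 0 * (2 * n + 2) := by
            conv_rhs => rw [hee]
            linear_combination (-|i'|) * hee2
          have := (hT.1 e 0 he).2
          rw [← h4] at this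
          rw [this]; ring
        rw [h3]
        have h5 : Int.sign i' = e := by
          conv_lhs => rw [hee]
          rw [Int.sign_mul, Int.sign_eq_one_of_pos h2]
          rcases he with h | h <;> rw [h] <;> rfl
        rw [h5, Int.sign_mul, Int.sign_eq_one_of_pos (show 0 < i by omega)]
        rcases he with h | h <;> rw [h] <;> rfl
      · intro x hx hx2
        rw [Finset.mem_Icc] at hx
        rw [hfix x hx.1 (by omega) hx2.1 hx2.2]
        exact Int.sign_eq_one_of_pos (by omega)
      · intro hcon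
        exact absurd (Finset.mem_Icc.mpr hi) hcon
      · intro hcon
        exact absurd (Finset.mem_Icc.mpr ⟨by omega, h1⟩) hcon

/-- if `t` preserves `[-j, j]`, nothing changes -/
lemma J_iff (hw : Aff n w) (ht : t ∈ Refl n) {j : ℕ} (hj : j < n) (hg : Good t j) :
    j ∈ J n (w * t) ↔ j ∈ J n w := by
  have htA := ht.1.1
  obtain ⟨-, a, b, -, htr⟩ := id ht
  have hgg : Good (w * t) j ↔ Good w j := by
    constructor
    · intro h x hx
      have := h (t x) (hg x hx)
      rwa [Equiv.Perm.mul_apply, transp_invol htr] at this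
    · intro h x hx
      rw [Equiv.Perm.mul_apply]
      exact h _ (hg x hx)
  rw [mem_J, mem_J, hgg, even_neg_iff (hw.mul htA), even_neg_iff hw,
    sj_mul hw htA hg, sj_refl ht (by exact_mod_cast hj.le) hg, mul_one]

end Pool.Agent.X251.BC
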