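import Pool.Agent.X251.BC.Cases

set_option autoImplicit false

namespace Pool.Agent.X251.BC

variable {n : ℕ} {w t u : Equiv.Perm ℤ}

lemma inB_one (n : ℕ) : InB n 1 := by
  refine ⟨aff_one, ?_⟩
  have : {i : ℤ | 0 < i ∧ (1 : Equiv.Perm ℤ) i < 0} = ∅ := by
    ext i
    simp only [Set.mem_ofPred_eq, Set.mem_empty_iff_false, iff_false, Equiv.Perm.coe_one, id_eq]
    omega
  rw [this, Set.ncard_empty]
  exact Even.zero

lemma R_one (n : ℕ) : R n 1 = 0 := by
  have h1 : tvd n 1 = 0 := by
    rw [tvd]
    apply Finset.sum_eq_zero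
    intro i _
    simp
  have h2 : J n 1 = ∅ := by
    rw [Finset.eq_empty_iff_forall_notMem]
    intro j hj
    apply (mem_J.mp hj).2.2.2
    rw [neg_zero' (w := 1)]
    · exact Even.zero
    · intro x hx _
      simp only [Equiv.Perm.coe_one, id_eq]
      omega
  rw [R, h1, h2]
  rfl

lemma R_nonneg (n : ℕ) (w : Equiv.Perm ℤ) : 0 ≤ R n w := by
  have : 0 ≤ tvd n w := Finset.sum_nonneg fun i _ => abs_nonneg _
  rw [R]
  positivity

lemma prod_inB (L : List (Equiv.Perm ℤ)) (hL : ∀ t ∈ L, t ∈ Refl n) : InB n L.prod := by
  induction L with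
  | nil => exact inB_one n
  | cons t L ih =>
    rw [List.prod_cons]
    exact (hL t (List.mem_cons_self)).1.mul (ih fun s hs => hL s (List.mem_cons_of_mem _ hs))

lemma lower (L : List (Equiv.Perm ℤ)) (hL : ∀ t ∈ L, t ∈ Refl n) :
    R n L.prod ≤ (L.map (tvd n)).sum := by
  induction L using List.reverseRecOn with
  | nil => rw [List.prod_nil, R_one]; simp
  | append_singleton L t ih =>
    rw [List.prod_append, List.prod_singleton, List.map_append, List.sum_append]
    have h1 := ih fun s hs => hL s (List.mem_append_left _ hs)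
    have h2 := hL t (List.mem_append_right _ (List.mem_singleton_self t))
    have h3 := R_le (prod_inB L fun s hs => hL s (List.mem_append_left _ hs)).1 h2
    simp only [List.map_cons, List.map_nil, List.sum_cons, List.sum_nil, add_zero]
    linarith

lemma upper (hw : InB n w) : ∃ L : List (Equiv.Perm ℤ), (∀ t ∈ L, t ∈ Refl n) ∧ L.prod = w ∧
    (L.map (tvd n)).sum ≤ R n w := by
  induction h : (R n w).toNat using Nat.strong_induction_on generalizing w with
  | _ m ih =>
    by_cases hne : w = 1
    · exact ⟨[], by simp, by rw [hne, List.prod_nil], by simpa using R_nonneg n w⟩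
    · obtain ⟨t, ht, hR⟩ := step hw hne
      have hpos := tvd_pos ht
      have h0 := R_nonneg n (w * t)
      obtain ⟨L, h1, h2, h3⟩ := ih (R n (w * t)).toNat (by omega) (hw.mul ht.1) rfl
      refine ⟨L ++ [t], ?_, ?_, ?_⟩
      · intro s hs
        rcases List.mem_append.mp hs with hs | hs
        · exact h1 s hs
        · rw [List.mem_singleton.mp hs]; exact ht
      · rw [List.prod_append, h2, List.prod_singleton, mul_assoc]
        obtain ⟨-, a, b, -, htr⟩ := ht
        have : t * t = 1 := by
          ext x
          exact transp_invol htr x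
        rw [this, mul_one]
      · rw [List.map_append, List.sum_append]
        simp only [List.map_cons, List.map_nil, List.sum_cons, List.sum_nil, add_zero]
        linarith

end Pool.Agent.X251.BC
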