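import Pool.Agent.X251.BC.Basic

set_option autoImplicit false

namespace Pool.Agent.X251.BC

variable {n : ℕ} {w t u : Equiv.Perm ℤ}

lemma Npos (n : ℕ) : (0 : ℤ) < 2 * n + 2 := by positivity

/-- values of non-multiples of `n+1` are non-multiples of `n+1` -/
lemma val_ne (hw : Aff n w) {i : ℤ} (hi : 1 ≤ i) (hi2 : i ≤ n) (m : ℤ) : w i ≠ m * (n + 1) := by
  intro hm
  have : w i = w (m * (n + 1)) := by rw [hm, hw.center]
  have := w.injective this
  exact not_center (n := n) (r := i) (e := 1) (k := 0) (m := m) hi hi2 (Or.inl rfl)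
    (by rw [this]; ring)

/-- the number of negative values at positive positions -/
lemma ncard_neg (hw : Aff n w) : Set.ncard {i : ℤ | 0 < i ∧ w i < 0} =
    ∑ i ∈ Finset.Icc (1 : ℤ) n, (w i / (2 * n + 2)).natAbs := by
  classical
  have hN := Npos n
  set A : ℤ → Finset ℤ := fun i =>
    if w i < 0 then (Finset.range (w i / (2 * n + 2)).natAbs).image
      (fun k : ℕ => i + (k : ℤ) * (2 * n + 2))
    else (Finset.range (w i / (2 * n + 2)).natAbs).image
      (fun k : ℕ => -i + ((k : ℤ) + 1) * (2 * n + 2)) with hA
  have hS : {i : ℤ | 0 < i ∧ w i < 0} = ((Finset.Icc (1 : ℤ) n).biUnion A : Finset ℤ) := by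
    ext x
    simp only [Set.mem_ofPred_eq, Finset.coe_biUnion, Finset.mem_coe, Finset.mem_Icc,
      Set.mem_iUnion, exists_prop]
    constructor
    · rintro ⟨hx, hwx⟩
      obtain ⟨r, e, k, hr0, hr1, he, hxx⟩ := rep n x
      have hne : ∀ m : ℤ, x ≠ m * (n + 1) := by
        intro m hm
        rw [hm, hw.center, ← hm] at hwx
        omega
      have h1 : 1 ≤ r := by
        by_contra hcon
        have : r = 0 := by omega
        rw [this] at hxx
        exact hne (2 * k) (by linear_combination hxx)
      have h2 : r ≤ n := by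
        by_contra hcon
        have : r = n + 1 := by omega
        rw [this] at hxx
        rcases he with h | h <;> rw [h] at hxx
        · exact hne (2 * k + 1) (by linear_combination hxx)
        · exact hne (2 * k - 1) (by linear_combination hxx)
      refine ⟨r, ⟨h1, h2⟩, ?_⟩
      have hv : w x = e * w r + k * (2 * n + 2) := by
        rw [hxx, hw.act _ _ _ he]
      rcases he with rfl | rfl
      · -- x = r + k N, k ≥ 0
        have hk : 0 ≤ k := by
          by_contra hcon
          have : k ≤ -1 := by omega
          nlinarith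
        have hneg : w r < 0 := by nlinarith
        have hdiv : w r / (2 * n + 2) + k < 0 := by
          rw [← Int.add_mul_ediv_right _ _ hN.ne']
          apply Int.ediv_neg_of_neg_of_pos _ hN
          rw [hv] at hwx
          linarith
        simp only [hA]
        rw [if_pos hneg]
        simp only [Finset.mem_image, Finset.mem_range]
        exact ⟨k.toNat, by omega, by rw [Int.toNat_of_nonneg hk, hxx]; ring⟩
      · have hk : 1 ≤ k := by
          by_contra hcon
          have : k ≤ 0 := by omega
          nlinarith
        have hpos : 0 < w r := by nlinarith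
        have hdiv : k ≤ w r / (2 * n + 2) := by
          rw [Int.le_ediv_iff_mul_le hN]
          rw [hv] at hwx
          linarith
        simp only [hA]
        rw [if_neg (by omega)]
        simp only [Finset.mem_image, Finset.mem_range]
        refine ⟨(k - 1).toNat, by omega, ?_⟩
        rw [Int.toNat_of_nonneg (by omega), hxx]; ring
    · rintro ⟨r, ⟨h1, h2⟩, hx⟩
      simp only [hA] at hx
      have hne := val_ne hw h1 h2
      have hdm := Int.emod_add_mul_ediv (w r) (2 * n + 2)
      have hm0 := Int.emod_nonneg (w r) hN.ne'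
      have hm1 := Int.emod_lt_of_pos (w r) hN
      split_ifs at hx with hneg
      · simp only [Finset.mem_image, Finset.mem_range] at hx
        obtain ⟨k, hk, rfl⟩ := hx
        have hq : w r / (2 * n + 2) < 0 := Int.ediv_neg_of_neg_of_pos hneg hN
        refine ⟨by positivity, ?_⟩
        rw [hw.addk]
        have : (k : ℤ) + 1 ≤ - (w r / (2 * n + 2)) := by omega
        nlinarith
      · simp only [Finset.mem_image, Finset.mem_range] at hx
        obtain ⟨k, hk, rfl⟩ := hx
        have hq : 0 ≤ w r / (2 * n + 2) := Int.ediv_nonneg (by omega) hN.le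
        have hk2 : (k : ℤ) + 1 ≤ w r / (2 * n + 2) := by omega
        constructor
        · nlinarith
        · rw [hw.addk, hw.1]
          have hm2 : w r % (2 * n + 2) ≠ 0 := by
            intro h0
            exact hne (2 * (w r / (2 * n + 2))) (by linear_combination (-1 : ℤ) * hdm + h0)
          have : 0 < w r % (2 * n + 2) := by omega
          nlinarith
  rw [hS, Set.ncard_coe_finset, Finset.card_biUnion]
  · refine Finset.sum_congr rfl fun i hi => ?_
    simp only [hA]
    split_ifs
    · rw [Finset.card_image_of_injective, Finset.card_range]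
      intro a b hab
      have h3 : ((a : ℤ) - b) * (2 * n + 2) = 0 := by linear_combination hab
      rcases mul_eq_zero.mp h3 with h | h
      · omega
      · omega
    · rw [Finset.card_image_of_injective, Finset.card_range]
      intro a b hab
      have h3 : ((a : ℤ) - b) * (2 * n + 2) = 0 := by linear_combination hab
      rcases mul_eq_zero.mp h3 with h | h
      · omega
      · omega
  · intro i hi j hj hij
    simp only [Finset.coe_Icc, Set.mem_Icc] at hi hj
    rw [Function.onFun, Finset.disjoint_left]
    intro x hx hx'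
    apply hij
    have key : ∀ i, x ∈ A i → ∃ e k : ℤ, (e = 1 ∨ e = -1) ∧ x = e * i + k * (2 * n + 2) := by
      intro i hx
      simp only [hA] at hx
      split_ifs at hx
      · simp only [Finset.mem_image, Finset.mem_range] at hx
        obtain ⟨k, -, rfl⟩ := hx
        exact ⟨1, k, Or.inl rfl, by ring⟩
      · simp only [Finset.mem_image, Finset.mem_range] at hx
        obtain ⟨k, -, rfl⟩ := hx
        exact ⟨-1, k + 1, Or.inr rfl, by ring⟩
    obtain ⟨e, k, he, h3⟩ := key i hx
    obtain ⟨e', k', he', h4⟩ := key j hx'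
    exact (uniq (n := n) hi.1 hi.2 hj.1 hj.2 he he' (by rw [← h3, h4])).1

/-- the parity -/
noncomputable def par (n : ℕ) (w : Equiv.Perm ℤ) : ℤ := ∑ i ∈ Finset.Icc (1 : ℤ) n, w i / (2 * n + 2)

lemma inB_iff (hw : Aff n w) : InB n w ↔ Even (par n w) := by
  rw [InB, and_iff_right hw, ncard_neg hw, par, ← Int.natAbs_even]
  have : ∀ s : Finset ℤ, (Even (∑ i ∈ s, (w i / (2 * n + 2)).natAbs) ↔
      Even (∑ i ∈ s, w i / (2 * n + 2)).natAbs) := by
    classical
    intro s
    induction s using Finset.induction_on with
    | empty => simp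
    | insert a s ha ih =>
      rw [Finset.sum_insert ha, Finset.sum_insert ha, Int.natAbs_even, Int.even_add, Nat.even_add,
        Int.natAbs_even, ih, Int.natAbs_even]
  exact this _

lemma par_mul (hw : Aff n w) (ht : Aff n t) :
    (Even (par n (w * t)) ↔ (Even (par n w) ↔ Even (par n t))) := by
  have hN := Npos n
  have h := reindex ht (fun x => (((w x / (2 * n + 2) - x / (2 * n + 2) : ℤ)) : ZMod 2)) ?_ ?_
  · have e1 : ∑ i ∈ Finset.Icc (1 : ℤ) n,
        (((w (t i) / (2 * n + 2) - t i / (2 * n + 2) : ℤ)) : ZMod 2) =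
        ((par n (w * t) - par n t : ℤ) : ZMod 2) := by
      simp only [par, Equiv.Perm.mul_apply]
      push_cast
      rw [Finset.sum_sub_distrib]
    have e2 : ∑ i ∈ Finset.Icc (1 : ℤ) n,
        (((w i / (2 * n + 2) - i / (2 * n + 2) : ℤ)) : ZMod 2) = ((par n w : ℤ) : ZMod 2) := by
      rw [par]
      push_cast
      refine Finset.sum_congr rfl fun i hi => ?_
      rw [Finset.mem_Icc] at hi
      rw [Int.ediv_eq_zero_of_lt (a := i) (by omega) (by omega)]
      simp
    rw [e1, e2] at h
    have h2 : ((par n (w * t) - par n t - par n w : ℤ) : ZMod 2) = 0 := by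
      push_cast at h ⊢
      linear_combination h
    rw [ZMod.intCast_zmod_eq_zero_iff_dvd] at h2
    have h3 : Even (par n (w * t) - par n t - par n w) := by
      rw [even_iff_two_dvd]
      exact_mod_cast h2
    rw [Int.even_sub, Int.even_sub] at h3
    tauto
  · intro x
    rw [hw.1]
    -- multiples of n + 1
    by_cases hx : ∃ m : ℤ, x = m * (n + 1)
    · obtain ⟨m, rfl⟩ := hx
      rw [hw.center]
      simp
    · have hx2 : ¬ ∃ m : ℤ, w x = m * (n + 1) := by
        rintro ⟨m, hm⟩
        apply hx
        refine ⟨m, w.injective ?_⟩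
        rw [hm, hw.center]
      have key : ∀ y : ℤ, (¬ ∃ m : ℤ, y = m * (n + 1)) →
          -y / (2 * n + 2) = - (y / (2 * n + 2)) - 1 := by
        intro y hy
        have hdm := Int.emod_add_mul_ediv y (2 * n + 2)
        have hm0 := Int.emod_nonneg y hN.ne'
        have hm1 := Int.emod_lt_of_pos y hN
        have hm2 : y % (2 * n + 2) ≠ 0 := by
          intro h0
          exact hy ⟨2 * (y / (2 * n + 2)), by linear_combination (-1 : ℤ) * hdm + h0⟩
        have h3 : -y = (2 * n + 2 - y % (2 * n + 2)) +
            (-(y / (2 * n + 2)) - 1) * (2 * n + 2) := by linear_combination (-1 : ℤ) * (-hdm)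
        rw [h3, Int.add_mul_ediv_right _ _ hN.ne',
          Int.ediv_eq_zero_of_lt (by omega) (by omega), zero_add]
      rw [key _ hx, key _ hx2]
      push_cast
      have h2 : (2 : ZMod 2) = 0 := by decide
      linear_combination (-((w x / (2 * n + 2) : ℤ) : ZMod 2) + ((x / (2 * n + 2) : ℤ) : ZMod 2)) * h2
  · intro x
    rw [hw.2]
    have e3 : ∀ y : ℤ, (y + (2 * n + 2)) / (2 * n + 2) = y / (2 * n + 2) + 1 := by
      intro y
      rw [Int.add_ediv_of_dvd_right (dvd_refl _), Int.ediv_self hN.ne']
    rw [e3, e3]
    congr 1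
    ring

lemma InB.mul (hw : InB n w) (ht : InB n t) : InB n (w * t) := by
  have h1 := (inB_iff hw.1).mp hw
  have h2 := (inB_iff ht.1).mp ht
  rw [inB_iff (hw.1.mul ht.1), par_mul hw.1 ht.1]
  exact ⟨fun _ => h2, fun _ => h1⟩

end Pool.Agent.X251.BC
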