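import Pool.Agent.X251.BC.Low

set_option autoImplicit false

namespace Pool.Agent.X251.BC

variable {n : ℕ} {w t u : Equiv.Perm ℤ}

/-- the number of gaps of class `j` between `0` and `x` -/
noncomputable def phi (n : ℕ) (j : ℕ) (x : ℤ) : ℤ :=
  (x + (2 * n + 2) - j - 1) / (2 * n + 2) + (x + j) / (2 * n + 2)

lemma neg_div' (n : ℕ) (y : ℤ) : -y / (2 * n + 2) = -((y + (2 * n + 2) - 1) / (2 * n + 2)) := by
  have hN := Npos n
  have hdm := Int.emod_add_mul_ediv y (2 * n + 2)
  have hm0 := Int.emod_nonneg y hN.ne'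
  have hm1 := Int.emod_lt_of_pos y hN
  by_cases h : y % (2 * n + 2) = 0
  · have h1 : y = (y / (2 * n + 2)) * (2 * n + 2) := by linear_combination (-1 : ℤ) * hdm + h
    have h2 : (y + (2 * n + 2) - 1) / (2 * n + 2) = y / (2 * n + 2) := by
      have h3 : y + (2 * n + 2) - 1 = (2 * n + 2 - 1) + (y / (2 * n + 2)) * (2 * n + 2) := by
        linear_combination h1
      rw [h3, Int.add_mul_ediv_right _ _ hN.ne', Int.ediv_eq_zero_of_lt (by omega) (by omega),
        zero_add]
    have h4 : -y / (2 * n + 2) = -(y / (2 * n + 2)) := by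
      have h3 : -y = 0 + (-(y / (2 * n + 2))) * (2 * n + 2) := by linear_combination -h1
      conv_lhs => rw [h3]
      rw [Int.add_mul_ediv_right _ _ hN.ne', Int.zero_ediv, zero_add]
    rw [h2, h4]
  · have h2 : (y + (2 * n + 2) - 1) / (2 * n + 2) = y / (2 * n + 2) + 1 := by
      have h3 : y + (2 * n + 2) - 1 = (y % (2 * n + 2) - 1) + (y / (2 * n + 2) + 1) * (2 * n + 2) := by
        linear_combination (-1 : ℤ) * hdm
      rw [h3, Int.add_mul_ediv_right _ _ hN.ne', Int.ediv_eq_zero_of_lt (by omega) (by omega),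
        zero_add]
    have h4 : -y / (2 * n + 2) = -(y / (2 * n + 2)) - 1 := by
      have h3 : -y = (2 * n + 2 - y % (2 * n + 2)) + (-(y / (2 * n + 2)) - 1) * (2 * n + 2) := by
        linear_combination hdm
      conv_lhs => rw [h3]
      rw [Int.add_mul_ediv_right _ _ hN.ne', Int.ediv_eq_zero_of_lt (by omega) (by omega),
        zero_add]
    rw [h2, h4]
    ring

lemma phi_neg (n j : ℕ) (x : ℤ) : phi n j (-x) = -phi n j x := by
  rw [phi, phi]
  have h1 := neg_div' n (x + j + 1 - (2 * n + 2))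
  have h2 := neg_div' n (x - j)
  rw [show -x + (2 * n + 2) - j - 1 = -(x + j + 1 - (2 * n + 2)) by ring, h1,
    show -x + (j : ℤ) = -(x - j) by ring, h2]
  rw [show x + (j : ℤ) + 1 - (2 * n + 2) + (2 * n + 2) - 1 = x + j by ring,
    show x - (j : ℤ) + (2 * n + 2) - 1 = x + (2 * n + 2) - j - 1 by ring]
  ring

lemma phi_add (n j : ℕ) (x : ℤ) : phi n j (x + (2 * n + 2)) = phi n j x + 2 := by
  have hN := Npos n
  rw [phi, phi]
  rw [show x + (2 * n + 2) + (2 * n + 2) - (j : ℤ) - 1 =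
    (x + (2 * n + 2) - j - 1) + 1 * (2 * n + 2) by ring, Int.add_mul_ediv_right _ _ hN.ne',
    show x + (2 * n + 2) + (j : ℤ) = (x + j) + 1 * (2 * n + 2) by ring,
    Int.add_mul_ediv_right _ _ hN.ne']
  ring

lemma phi_mono (n j : ℕ) {x y : ℤ} (h : x ≤ y) : phi n j x ≤ phi n j y := by
  have hN := Npos n
  rw [phi, phi]
  exact add_le_add (Int.ediv_le_ediv hN (by omega)) (Int.ediv_le_ediv hN (by omega))

lemma phi_pos {j : ℕ} (hj : j ≤ n) {x : ℤ} (hx : (j : ℤ) < x) : 1 ≤ phi n j x := by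
  have hN := Npos n
  rw [phi]
  have h1 : 1 ≤ (x + (2 * n + 2) - j - 1) / (2 * n + 2) := by
    rw [Int.le_ediv_iff_mul_le hN]; omega
  have h2 : 0 ≤ (x + j) / (2 * n + 2) := Int.ediv_nonneg (by omega) hN.le
  omega

lemma phi_zero_iff {j : ℕ} (hj : j ≤ n) (x : ℤ) : phi n j x = 0 ↔ |x| ≤ j := by
  constructor
  · intro h
    rw [abs_le]
    constructor
    · by_contra hcon
      have := phi_pos (n := n) hj (x := -x) (by omega)
      rw [phi_neg] at this
      omega
    · by_contra hcon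
      have := phi_pos (n := n) hj (x := x) (by omega)
      omega
  · intro h
    rw [abs_le] at h
    rw [phi, Int.ediv_eq_zero_of_lt (by omega) (by omega),
      Int.ediv_eq_zero_of_lt (by omega) (by omega), add_zero]

lemma hermite (n : ℕ) (x : ℤ) :
    ∑ j ∈ Finset.range (2 * n + 2), (x + (j : ℤ)) / (2 * n + 2) = x := by
  have hN := Npos n
  have step : ∀ x : ℤ, ∑ j ∈ Finset.range (2 * n + 2), (x + 1 + (j : ℤ)) / (2 * n + 2) =
      ∑ j ∈ Finset.range (2 * n + 2), (x + (j : ℤ)) / (2 * n + 2) + 1 := by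
    intro x
    have h1 := Finset.sum_range_succ (fun j : ℕ => (x + (j : ℤ)) / (2 * n + 2)) (2 * n + 2)
    have h2 := Finset.sum_range_succ' (fun j : ℕ => (x + (j : ℤ)) / (2 * n + 2)) (2 * n + 2)
    rw [h1] at h2
    simp only [Nat.cast_zero, add_zero, Nat.cast_add, Nat.cast_one] at h2
    have h3 : (x + ((2 * n + 2 : ℕ) : ℤ)) / (2 * n + 2) = x / (2 * n + 2) + 1 := by
      push_cast
      rw [Int.add_ediv_of_dvd_right (dvd_refl _), Int.ediv_self hN.ne']
    push_cast at h2 h3
    have h4 : ∑ j ∈ Finset.range (2 * n + 2), (x + 1 + (j : ℤ)) / (2 * n + 2) =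
        ∑ j ∈ Finset.range (2 * n + 2), (x + ((j : ℤ) + 1)) / (2 * n + 2) :=
      Finset.sum_congr rfl fun j _ => by rw [show x + 1 + (j : ℤ) = x + ((j : ℤ) + 1) by ring]
    rw [h4]
    linarith
  have h0 : ∑ j ∈ Finset.range (2 * n + 2), ((0 : ℤ) + (j : ℤ)) / (2 * n + 2) = 0 := by
    apply Finset.sum_eq_zero
    intro j hj
    rw [Finset.mem_range] at hj
    exact Int.ediv_eq_zero_of_lt (by omega) (by omega)
  induction x using Int.induction_on with
  | zero => exact h0
  | succ k ih => rw [step, ih]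
  | pred k ih =>
    have := step (-(k : ℤ) - 1)
    rw [show -(k : ℤ) - 1 + 1 = -(k : ℤ) by ring, ih] at this
    linarith

lemma phi_sum (n : ℕ) (x : ℤ) : ∑ j ∈ Finset.range (n + 1), phi n j x = x := by
  have h1 : ∑ j ∈ Finset.range (n + 1), phi n j x =
      ∑ j ∈ Finset.range (n + 1), (x + (2 * n + 2) - j - 1) / (2 * n + 2) +
      ∑ j ∈ Finset.range (n + 1), (x + (j : ℤ)) / (2 * n + 2) := by
    rw [← Finset.sum_add_distrib]; rfl
  have h2 := hermite n x
  rw [show 2 * n + 2 = (n + 1) + (n + 1) by ring, Finset.sum_range_add] at h2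
  have h3 : ∑ j ∈ Finset.range (n + 1), (x + ((n + 1 + j : ℕ) : ℤ)) / (2 * n + 2) =
      ∑ j ∈ Finset.range (n + 1), (x + (2 * n + 2) - j - 1) / (2 * n + 2) := by
    rw [← Finset.sum_range_reflect]
    refine Finset.sum_congr rfl fun j hj => ?_
    rw [Finset.mem_range] at hj
    congr 1
    have : ((n + 1 + (n + 1 - 1 - j) : ℕ) : ℤ) = 2 * n + 1 - j := by omega
    rw [this]
    ring
  rw [h1, ← h3, add_comm]
  exact h2

lemma abs_sum (n : ℕ) (x y : ℤ) :
    |x - y| = ∑ j ∈ Finset.range (n + 1), |phi n j x - phi n j y| := by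
  wlog h : y ≤ x generalizing x y
  · rw [abs_sub_comm, this y x (by omega)]
    exact Finset.sum_congr rfl fun j _ => abs_sub_comm _ _
  · rw [abs_of_nonneg (by omega)]
    conv_lhs => rw [← phi_sum n x, ← phi_sum n y, ← Finset.sum_sub_distrib]
    refine Finset.sum_congr rfl fun j _ => ?_
    rw [abs_of_nonneg (by linarith [phi_mono n j h])]

/-- displacement across the gaps of class `j` -/
noncomputable def C (n j : ℕ) (w : Equiv.Perm ℤ) : ℤ :=
  ∑ i ∈ Finset.Icc (1 : ℤ) n, |phi n j (w i) - phi n j i|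

lemma tvd_eq (w : Equiv.Perm ℤ) : tvd n w = ∑ j ∈ Finset.range (n + 1), C n j w := by
  rw [tvd]
  simp only [C]
  rw [Finset.sum_comm]
  exact Finset.sum_congr rfl fun i _ => abs_sum n _ _

lemma C_re (j : ℕ) (hw : Aff n w) (ht : Aff n t) :
    C n j w = ∑ i ∈ Finset.Icc (1 : ℤ) n, |phi n j (w (t i)) - phi n j (t i)| := by
  rw [C]
  refine (reindex ht (fun x => |phi n j (w x) - phi n j x|) ?_ ?_).symm
  · intro x
    rw [hw.1, phi_neg, phi_neg, ← abs_neg]
    congr 1; ring
  · intro x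
    rw [hw.2, phi_add, phi_add]
    congr 1; ring

lemma slack (a b c : ℤ) : |a - c| ≤ |a - b| + |b - c| ∧
    (|a - b| + |b - c| ≠ |a - c| → |a - c| + 2 ≤ |a - b| + |b - c|) := by
  rcases abs_cases (a - b) with h | h <;> rcases abs_cases (b - c) with h' | h' <;>
    rcases abs_cases (a - c) with h'' | h'' <;> constructor <;> intros <;> omega

lemma C_le (j : ℕ) (hw : Aff n w) (ht : Aff n t) : C n j (w * t) ≤ C n j w + C n j t := by
  rw [C_re j hw ht, C, C, ← Finset.sum_add_distrib]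
  refine Finset.sum_le_sum fun i _ => ?_
  rw [Equiv.Perm.mul_apply]
  exact (slack _ _ _).1

lemma C_lt {j : ℕ} (hw : Aff n w) (ht : t ∈ Refl n) (h1 : j ∈ J n (w * t)) (h2 : j ∉ J n w) :
    C n j (w * t) + 2 ≤ C n j w + C n j t := by
  have htA := ht.1.1
  obtain ⟨-, a, b, -, htr⟩ := id ht
  have hjn := (mem_J.mp h1).1
  have hg : ¬ Good t j := by
    intro hg
    exact h2 ((J_iff hw ht hjn hg).mp h1)
  have hgood := (mem_J.mp h1).2.2.1
  -- some slack
  obtain ⟨i, hi, hne⟩ : ∃ i ∈ Finset.Icc (1 : ℤ) n,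
      |phi n j (w (t i)) - phi n j (t i)| + |phi n j (t i) - phi n j i| ≠
      |phi n j (w (t i)) - phi n j i| := by
    by_contra hcon
    push Not at hcon
    apply hg
    have key : ∀ x : ℤ, 1 ≤ x → x ≤ j → |t x| ≤ j := by
      intro x hx1 hx2
      have h3 := hcon x (Finset.mem_Icc.mpr ⟨hx1, by omega⟩)
      have h4 : phi n j x = 0 := (phi_zero_iff hjn.le x).mpr (by rw [abs_of_pos (by omega)]; exact hx2)
      have h5 : phi n j (w (t x)) = 0 := (phi_zero_iff hjn.le _).mpr
        (hgood x (by rw [abs_of_pos (by omega)]; exact hx2))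
      rw [h4, h5] at h3
      simp only [zero_sub, sub_zero, abs_neg, abs_zero] at h3
      rw [← phi_zero_iff hjn.le]
      have := abs_nonneg (phi n j (t x))
      exact abs_eq_zero.mp (by omega)
    intro x hx
    rcases lt_trichotomy x 0 with h | h | h
    · rw [abs_of_neg h] at hx
      have := key (-x) (by omega) hx
      rwa [htA.1, abs_neg] at this
    · rw [h, htA.zero, abs_zero]; omega
    · rw [abs_of_pos h] at hx
      exact key x (by omega) hx
  rw [C_re j hw htA, C, C, ← Finset.sum_add_distrib]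
  simp only [Equiv.Perm.mul_apply]
  rw [← Finset.add_sum_erase _ _ hi, ← Finset.add_sum_erase _ _ hi]
  have h6 := (slack (phi n j (w (t i))) (phi n j (t i)) (phi n j i)).2 hne
  have h7 : ∑ x ∈ (Finset.Icc (1 : ℤ) n).erase i, |phi n j (w (t x)) - phi n j x| ≤
      ∑ x ∈ (Finset.Icc (1 : ℤ) n).erase i,
        (|phi n j (w (t x)) - phi n j (t x)| + |phi n j (t x) - phi n j x|) :=
    Finset.sum_le_sum fun x _ => (slack _ _ _).1
  linarith

/-- the lower bound -/
lemma R_le (hw : Aff n w) (ht : t ∈ Refl n) : R n (w * t) ≤ R n w + tvd n t := by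
  classical
  have htA := ht.1.1
  set D := J n (w * t) \ J n w with hD
  have h1 : ∑ j ∈ Finset.range (n + 1), (C n j (w * t) + if j ∈ D then (2 : ℤ) else 0) ≤
      ∑ j ∈ Finset.range (n + 1), (C n j w + C n j t) := by
    refine Finset.sum_le_sum fun j _ => ?_
    split_ifs with h
    · rw [hD, Finset.mem_sdiff] at h
      exact C_lt hw ht h.1 h.2
    · rw [add_zero]; exact C_le j hw htA
  rw [Finset.sum_add_distrib, Finset.sum_add_distrib, ← tvd_eq, ← tvd_eq, ← tvd_eq] at h1
  have h2 : ∑ j ∈ Finset.range (n + 1), (if j ∈ D then (2 : ℤ) else 0) = 2 * (D.card : ℤ) := by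
    rw [Finset.sum_ite_mem, Finset.inter_eq_right.mpr, Finset.sum_const, nsmul_eq_mul, mul_comm]
    intro j hj
    rw [hD, Finset.mem_sdiff, mem_J] at hj
    rw [Finset.mem_range]; omega
  rw [h2] at h1
  have h3 : (J n (w * t)).card ≤ D.card + (J n w).card := by
    have : J n (w * t) ⊆ D ∪ J n w := by
      intro j hj
      by_cases h : j ∈ J n w
      · exact Finset.mem_union_right _ h
      · exact Finset.mem_union_left _ (Finset.mem_sdiff.mpr ⟨hj, h⟩)
    exact (Finset.card_le_card this).trans (Finset.card_union_le _ _)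
  rw [R, R]
  have h4 : ((J n (w * t)).card : ℤ) ≤ D.card + (J n w).card := by exact_mod_cast h3
  linarith

end Pool.Agent.X251.BC
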