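import Pool.Agent.X251.BC.Phi

set_option autoImplicit false

namespace Pool.Agent.X251.BC

variable {n : ℕ} {w t u : Equiv.Perm ℤ}

/-- the function `⟨(a b)⟩` -/
def swapFun (n : ℕ) (a b x : ℤ) : ℤ :=
  if (2 * n + 2 : ℤ) ∣ x - a then x - a + b
  else if (2 * n + 2 : ℤ) ∣ x - b then x - b + a
  else if (2 * n + 2 : ℤ) ∣ x + a then x + a - b
  else if (2 * n + 2 : ℤ) ∣ x + b then x + b - a
  else x

lemma swap_spec {a b : ℤ} (h1 : ¬ (2 * n + 2 : ℤ) ∣ a - b) (h2 : ¬ (2 * n + 2 : ℤ) ∣ 2 * a)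
    (h3 : ¬ (2 * n + 2 : ℤ) ∣ 2 * b) :
    (∀ e k : ℤ, (e = 1 ∨ e = -1) →
      swapFun n a b (e * a + k * (2 * n + 2)) = e * b + k * (2 * n + 2) ∧
      swapFun n a b (e * b + k * (2 * n + 2)) = e * a + k * (2 * n + 2)) ∧
    ∀ x : ℤ, (∀ e k : ℤ, (e = 1 ∨ e = -1) →
      x ≠ e * a + k * (2 * n + 2) ∧ x ≠ e * b + k * (2 * n + 2)) → swapFun n a b x = x := by
  have hk : ∀ k : ℤ, (2 * n + 2 : ℤ) ∣ k * (2 * n + 2) := fun k => Dvd.intro_left k rfl
  constructor
  · rintro e k (rfl | rfl)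
    · constructor
      · rw [swapFun, if_pos (by rw [show 1 * a + k * (2 * n + 2) - a = k * (2 * n + 2) by ring]
                                exact hk k)]
        ring
      · rw [swapFun, if_neg, if_pos (by
          rw [show 1 * b + k * (2 * n + 2) - b = k * (2 * n + 2) by ring]; exact hk k)]
        · ring
        · intro h
          apply h1
          have := dvd_sub (hk k) h
          rwa [show k * (2 * (n : ℤ) + 2) - (1 * b + k * (2 * n + 2) - a) = a - b by ring] at this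
    · constructor
      · rw [swapFun, if_neg]
        · by_cases h4 : (2 * n + 2 : ℤ) ∣ -1 * a + k * (2 * n + 2) - b
          · rw [if_pos h4]; ring
          · rw [if_neg h4, if_pos (by
              rw [show -1 * a + k * (2 * n + 2) + a = k * (2 * n + 2) by ring]; exact hk k)]
            ring
        · intro h
          apply h2
          have := dvd_sub (hk k) h
          rwa [show k * (2 * (n : ℤ) + 2) - (-1 * a + k * (2 * n + 2) - a) = 2 * a by ring] at this
      · by_cases h4 : (2 * n + 2 : ℤ) ∣ -1 * b + k * (2 * n + 2) - a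
        · rw [swapFun, if_pos h4]; ring
        · rw [swapFun, if_neg h4, if_neg, if_neg, if_pos (by
              rw [show -1 * b + k * (2 * n + 2) + b = k * (2 * n + 2) by ring]; exact hk k)]
          · ring
          · intro h
            apply h1
            have := dvd_sub h (hk k)
            rwa [show (-1 * b + k * (2 * n + 2) + a) - k * (2 * (n : ℤ) + 2) = a - b by ring]
              at this
          · intro h
            apply h3
            have := dvd_sub (hk k) h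
            rwa [show k * (2 * (n : ℤ) + 2) - (-1 * b + k * (2 * n + 2) - b) = 2 * b by ring]
              at this
  · intro x hx
    rw [swapFun, if_neg, if_neg, if_neg, if_neg]
    · rintro ⟨c, hc⟩
      exact (hx (-1) c (Or.inr rfl)).2 (by linear_combination hc)
    · rintro ⟨c, hc⟩
      exact (hx (-1) c (Or.inr rfl)).1 (by linear_combination hc)
    · rintro ⟨c, hc⟩
      exact (hx 1 c (Or.inl rfl)).2 (by linear_combination hc)
    · rintro ⟨c, hc⟩
      exact (hx 1 c (Or.inl rfl)).1 (by linear_combination hc)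

lemma exists_transp {a b : ℤ} (h1 : ¬ (2 * n + 2 : ℤ) ∣ a - b) (h2 : ¬ (2 * n + 2 : ℤ) ∣ 2 * a)
    (h3 : ¬ (2 * n + 2 : ℤ) ∣ 2 * b) : ∃ t : Equiv.Perm ℤ, IsTransp n a b t := by
  obtain ⟨s1, s2⟩ := swap_spec h1 h2 h3
  have hinv : Function.Involutive (swapFun n a b) := by
    intro x
    by_cases hx : ∀ e k : ℤ, (e = 1 ∨ e = -1) →
      x ≠ e * a + k * (2 * n + 2) ∧ x ≠ e * b + k * (2 * n + 2)
    · rw [s2 x hx, s2 x hx]
    · push Not at hx
      obtain ⟨e, k, he, hx⟩ := hx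
      by_cases h1 : x = e * a + k * (2 * n + 2)
      · rw [h1, (s1 e k he).1, (s1 e k he).2]
      · rw [hx h1, (s1 e k he).2, (s1 e k he).1]
  exact ⟨hinv.toPerm, s1, s2⟩

lemma transp_aff {a b : ℤ} (h : IsTransp n a b t) : Aff n t := by
  have key : ∀ e k x : ℤ, (e = 1 ∨ e = -1) →
      t (e * x + k * (2 * n + 2)) = e * t x + k * (2 * n + 2) := by
    intro e k x he
    have hee : e * e = 1 := by rcases he with h | h <;> rw [h] <;> norm_num
    by_cases hx : ∀ e k : ℤ, (e = 1 ∨ e = -1) →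
      x ≠ e * a + k * (2 * n + 2) ∧ x ≠ e * b + k * (2 * n + 2)
    · rw [h.2 x hx, h.2]
      intro e' k' he'
      have hs : e * e' = 1 ∨ e * e' = -1 := by
        rcases he with h | h <;> rcases he' with h' | h' <;> rw [h, h'] <;> norm_num
      have := hx (e * e') (e * (k' - k)) hs
      constructor
      · intro hc
        exact this.1 (by linear_combination (-x) * hee + e * hc)
      · intro hc
        exact this.2 (by linear_combination (-x) * hee + e * hc)
    · push Not at hx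
      obtain ⟨e', k', he', hx⟩ := hx
      have hs : e * e' = 1 ∨ e * e' = -1 := by
        rcases he with h | h <;> rcases he' with h' | h' <;> rw [h, h'] <;> norm_num
      by_cases h1 : x = e' * a + k' * (2 * n + 2)
      · rw [h1, (h.1 e' k' he').1]
        have := (h.1 (e * e') (e * k' + k) hs).1
        rw [show e * (e' * a + k' * (2 * n + 2)) + k * (2 * n + 2) =
          e * e' * a + (e * k' + k) * (2 * n + 2) by ring, this]
        ring
      · rw [hx h1, (h.1 e' k' he').2]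
        have := (h.1 (e * e') (e * k' + k) hs).2
        rw [show e * (e' * b + k' * (2 * n + 2)) + k * (2 * n + 2) =
          e * e' * b + (e * k' + k) * (2 * n + 2) by ring, this]
        ring
  constructor
  · intro x
    have := key (-1) 0 x (Or.inr rfl)
    simpa using this
  · intro x
    have := key 1 1 x (Or.inl rfl)
    simpa using this

/-- the points of the window outside the classes of `a` and `b` are fixed -/
lemma window_fix {a b e1 r1 k1 e2 r2 k2 : ℤ} (h : IsTransp n a b t)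
    (he1 : e1 = 1 ∨ e1 = -1) (he2 : e2 = 1 ∨ e2 = -1) (hr1 : 1 ≤ r1) (hr1' : r1 ≤ n)
    (hr2 : 1 ≤ r2) (hr2' : r2 ≤ n) (ha : a = e1 * r1 + k1 * (2 * n + 2))
    (hb : b = e2 * r2 + k2 * (2 * n + 2)) {x : ℤ} (hx : 1 ≤ x) (hx' : x ≤ n) (hx1 : x ≠ r1)
    (hx2 : x ≠ r2) : t x = x := by
  refine h.2 x fun e k he => ⟨fun hc => hx1 ?_, fun hc => hx2 ?_⟩
  · have hs : e * e1 = 1 ∨ e * e1 = -1 := by
      rcases he with h | h <;> rcases he1 with h' | h' <;> rw [h, h'] <;> norm_num
    exact (uniq (n := n) (e := 1) (k := 0) (k' := e * k1 + k) hx hx' hr1 hr1' (Or.inl rfl) hs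
      (by rw [ha] at hc; linear_combination hc)).1
  · have hs : e * e2 = 1 ∨ e * e2 = -1 := by
      rcases he with h | h <;> rcases he2 with h' | h' <;> rw [h, h'] <;> norm_num
    exact (uniq (n := n) (e := 1) (k := 0) (k' := e * k2 + k) hx hx' hr2 hr2' (Or.inl rfl) hs
      (by rw [hb] at hc; linear_combination hc)).1

lemma not_dvd {x : ℤ} (h : x ≠ 0) (h2 : |x| < 2 * n + 2) : ¬ (2 * n + 2 : ℤ) ∣ x :=
  fun h3 => h (Int.eq_zero_of_abs_lt_dvd h3 h2)

/-- what we need to know about a reflection -/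
structure Info (n : ℕ) (t : Equiv.Perm ℤ) : Prop where
  mem : t ∈ Refl n
  inv : ∀ x, t (t x) = x

lemma Info.aff (h : Info n t) : Aff n t := h.mem.1.1

lemma mk_info {a b : ℤ} (h : IsTransp n a b t) (hab : a ≠ b) (hp : Even (par n t)) :
    Info n t :=
  ⟨⟨(inB_iff (transp_aff h)).mpr hp, a, b, hab, h⟩, transp_invol h⟩

/-- `⟨(a b)⟩`, `0 < a < b ≤ n` -/
lemma ref1 {a b : ℤ} (ha : 1 ≤ a) (hab : a < b) (hb : b ≤ n) :
    ∃ t, Info n t ∧ t a = b ∧ t b = a ∧ ∀ x : ℤ, 1 ≤ x → x ≤ n → x ≠ a → x ≠ b → t x = x := by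
  obtain ⟨t, h⟩ := exists_transp (n := n) (a := a) (b := b)
    (not_dvd (by omega) (by rw [abs_lt]; omega)) (not_dvd (by omega) (by rw [abs_lt]; omega))
    (not_dvd (by omega) (by rw [abs_lt]; omega))
  have h1 : t a = b := by simpa using (h.1 1 0 (Or.inl rfl)).1
  have h2 : t b = a := by simpa using (h.1 1 0 (Or.inl rfl)).2
  have h3 : ∀ x : ℤ, 1 ≤ x → x ≤ n → x ≠ a → x ≠ b → t x = x := fun x hx hx' hxa hxb =>
    window_fix h (e1 := 1) (e2 := 1) (k1 := 0) (k2 := 0) (r1 := a) (r2 := b) (Or.inl rfl)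
      (Or.inl rfl) ha (by omega) (by omega) hb (by ring) (by ring) hx hx' hxa hxb
  refine ⟨t, mk_info h (by omega) ?_, h1, h2, h3⟩
  have : par n t = 0 := by
    rw [par]
    apply Finset.sum_eq_zero
    intro x hx
    rw [Finset.mem_Icc] at hx
    by_cases hxa : x = a
    · rw [hxa, h1]; exact Int.ediv_eq_zero_of_lt (by omega) (by omega)
    · by_cases hxb : x = b
      · rw [hxb, h2]; exact Int.ediv_eq_zero_of_lt (by omega) (by omega)
      · rw [h3 x hx.1 hx.2 hxa hxb]; exact Int.ediv_eq_zero_of_lt (by omega) (by omega)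
  rw [this]; exact Even.zero

lemma div_neg_one {x : ℤ} (h : -(2 * n + 2 : ℤ) ≤ x) (h2 : x < 0) : x / (2 * n + 2) = -1 := by
  have hN := Npos n
  rw [show x = (x + (2 * n + 2)) + (-1) * (2 * n + 2) by ring, Int.add_mul_ediv_right _ _ hN.ne',
    Int.ediv_eq_zero_of_lt (by omega) (by omega)]
  norm_num

/-- `⟨(-p c)⟩`, `0 < p < c ≤ n` -/
lemma ref2 {p c : ℤ} (hp : 1 ≤ p) (hpc : p < c) (hc : c ≤ n) :
    ∃ t, Info n t ∧ t p = -c ∧ t c = -p ∧ ∀ x : ℤ, 1 ≤ x → x ≤ n → x ≠ p → x ≠ c → t x = x := by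
  obtain ⟨t, h⟩ := exists_transp (n := n) (a := -p) (b := c)
    (not_dvd (by omega) (by rw [abs_lt]; omega)) (not_dvd (by omega) (by rw [abs_lt]; omega))
    (not_dvd (by omega) (by rw [abs_lt]; omega))
  have h1 : t p = -c := by simpa using (h.1 (-1) 0 (Or.inr rfl)).1
  have h2 : t c = -p := by simpa using (h.1 1 0 (Or.inl rfl)).2
  have h3 : ∀ x : ℤ, 1 ≤ x → x ≤ n → x ≠ p → x ≠ c → t x = x := fun x hx hx' hxa hxb =>
    window_fix h (e1 := -1) (e2 := 1) (k1 := 0) (k2 := 0) (r1 := p) (r2 := c) (Or.inr rfl)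
      (Or.inl rfl) hp (by omega) (by omega) hc (by ring) (by ring) hx hx' hxa hxb
  refine ⟨t, mk_info h (by omega) ?_, h1, h2, h3⟩
  have : par n t = -2 := by
    rw [par, Finset.sum_eq_add p c (by omega)]
    · rw [h1, h2, div_neg_one (by omega) (by omega), div_neg_one (by omega) (by omega)]
      norm_num
    · intro x hx hx2
      rw [Finset.mem_Icc] at hx
      rw [h3 x hx.1 hx.2 hx2.1 hx2.2]; exact Int.ediv_eq_zero_of_lt (by omega) (by omega)
    · intro hcon
      exact absurd (Finset.mem_Icc.mpr ⟨by omega, by omega⟩) hcon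
    · intro hcon
      exact absurd (Finset.mem_Icc.mpr ⟨by omega, by omega⟩) hcon
  rw [this]; decide

/-- `⟨(i  N-i)⟩`, `0 < i ≤ n` -/
lemma ref3 {i : ℤ} (hi : 1 ≤ i) (hin : i ≤ n) :
    ∃ t, Info n t ∧ t i = 2 * n + 2 - i ∧ ∀ x : ℤ, 1 ≤ x → x ≤ n → x ≠ i → t x = x := by
  have hnd : ¬ (2 * n + 2 : ℤ) ∣ 2 * i := not_dvd (by omega) (by rw [abs_lt]; omega)
  obtain ⟨t, h⟩ := exists_transp (n := n) (a := i) (b := 2 * n + 2 - i)
    (not_dvd (by omega) (by rw [abs_lt]; omega)) hnd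
    (by
      intro hc
      apply hnd
      have := dvd_sub (Dvd.intro_left (2 : ℤ) rfl : (2 * n + 2 : ℤ) ∣ 2 * (2 * n + 2)) hc
      rwa [show 2 * (2 * (n : ℤ) + 2) - 2 * (2 * n + 2 - i) = 2 * i by ring] at this)
  have h1 : t i = 2 * n + 2 - i := by simpa using (h.1 1 0 (Or.inl rfl)).1
  have h3 : ∀ x : ℤ, 1 ≤ x → x ≤ n → x ≠ i → t x = x := fun x hx hx' hxa =>
    window_fix h (e1 := 1) (e2 := -1) (k1 := 0) (k2 := 1) (r1 := i) (r2 := i) (Or.inl rfl)
      (Or.inr rfl) hi (by omega) (by omega) hin (by ring) (by ring) hx hx' hxa hxa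
  refine ⟨t, mk_info h (by omega) ?_, h1, h3⟩
  have : par n t = 0 := by
    rw [par]
    apply Finset.sum_eq_zero
    intro x hx
    rw [Finset.mem_Icc] at hx
    by_cases hxa : x = i
    · rw [hxa, h1]; exact Int.ediv_eq_zero_of_lt (by omega) (by omega)
    · rw [h3 x hx.1 hx.2 hxa]; exact Int.ediv_eq_zero_of_lt (by omega) (by omega)
  rw [this]; exact Even.zero

/-- `⟨(-p  N+p)⟩`, `0 < p ≤ n` -/
lemma ref4 {p : ℤ} (hp : 1 ≤ p) (hpn : p ≤ n) :
    ∃ t, Info n t ∧ t p = -(2 * n + 2) - p ∧ ∀ x : ℤ, 1 ≤ x → x ≤ n → x ≠ p → t x = x := by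
  have hnd : ¬ (2 * n + 2 : ℤ) ∣ 2 * p := not_dvd (by omega) (by rw [abs_lt]; omega)
  obtain ⟨t, h⟩ := exists_transp (n := n) (a := -p) (b := 2 * n + 2 + p)
    (by
      intro hc
      apply hnd
      have := dvd_add hc (dvd_refl (2 * n + 2 : ℤ))
      rw [show -p - (2 * (n : ℤ) + 2 + p) + (2 * n + 2) = -(2 * p) by ring, dvd_neg] at this
      exact this)
    (by rw [mul_neg, dvd_neg]; exact hnd)
    (by
      intro hc
      apply hnd
      have := dvd_sub hc (Dvd.intro_left (2 : ℤ) rfl : (2 * n + 2 : ℤ) ∣ 2 * (2 * n + 2))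
      rwa [show 2 * (2 * (n : ℤ) + 2 + p) - 2 * (2 * n + 2) = 2 * p by ring] at this)
  have h1 : t p = -(2 * n + 2) - p := by
    have := (h.1 (-1) 0 (Or.inr rfl)).1
    rw [show -1 * -p + 0 * (2 * (n : ℤ) + 2) = p by ring] at this
    rw [this]; ring
  have h3 : ∀ x : ℤ, 1 ≤ x → x ≤ n → x ≠ p → t x = x := fun x hx hx' hxa =>
    window_fix h (e1 := -1) (e2 := 1) (k1 := 0) (k2 := 1) (r1 := p) (r2 := p) (Or.inr rfl)
      (Or.inl rfl) hp (by omega) (by omega) hpn (by ring) (by ring) hx hx' hxa hxa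
  refine ⟨t, mk_info h (by omega) ?_, h1, h3⟩
  have hN := Npos n
  have : par n t = -2 := by
    rw [par, Finset.sum_eq_single p]
    · rw [h1, show -(2 * (n : ℤ) + 2) - p = (2 * n + 2 - p) + (-2) * (2 * n + 2) by ring,
        Int.add_mul_ediv_right _ _ hN.ne', Int.ediv_eq_zero_of_lt (by omega) (by omega)]
      norm_num
    · intro x hx hx2
      rw [Finset.mem_Icc] at hx
      rw [h3 x hx.1 hx.2 hx2]; exact Int.ediv_eq_zero_of_lt (by omega) (by omega)
    · intro hcon
      exact absurd (Finset.mem_Icc.mpr ⟨by omega, by omega⟩) hcon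
  rw [this]; decide

end Pool.Agent.X251.BC
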