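import Pool.Agent.X251.BC.Ref

set_option autoImplicit false

namespace Pool.Agent.X251.BC

variable {n : ℕ} {w t u : Equiv.Perm ℤ}

lemma first_in (P : ℤ → Prop) {a b : ℤ} (h : ∃ x, a ≤ x ∧ x ≤ b ∧ P x) :
    ∃ x, a ≤ x ∧ x ≤ b ∧ P x ∧ ∀ y, a ≤ y → y < x → ¬ P y := by
  obtain ⟨x, hx, hmin⟩ := Int.exists_least_of_bdd (P := fun x => a ≤ x ∧ x ≤ b ∧ P x)
    ⟨a, fun z hz => hz.1⟩ h
  refine ⟨x, hx.1, hx.2.1, hx.2.2, fun y hy hyx hP => ?_⟩
  have := hmin y ⟨hy, by linarith [hx.2.1], hP⟩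
  omega

lemma last_in (P : ℤ → Prop) {a b : ℤ} (h : ∃ x, a ≤ x ∧ x ≤ b ∧ P x) :
    ∃ x, a ≤ x ∧ x ≤ b ∧ P x ∧ ∀ y, x < y → y ≤ b → ¬ P y := by
  obtain ⟨x, hx, hmax⟩ := Int.exists_greatest_of_bdd (P := fun x => a ≤ x ∧ x ≤ b ∧ P x)
    ⟨b, fun z hz => hz.2.1⟩ h
  refine ⟨x, hx.1, hx.2.1, hx.2.2, fun y hy hyx hP => ?_⟩
  have := hmax y ⟨by linarith [hx.1], hyx, hP⟩
  omega

lemma good_of_window (ht : Aff n t) {j : ℤ} (hj : 0 ≤ j)
    (h : ∀ x : ℤ, 1 ≤ x → x ≤ j → |t x| ≤ j) : Good t j := by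
  intro x hx
  rcases lt_trichotomy x 0 with h0 | h0 | h0
  · rw [abs_of_neg h0] at hx
    have := h (-x) (by omega) hx
    rwa [ht.1, abs_neg] at this
  · rw [h0, ht.zero, abs_zero]; exact hj
  · rw [abs_of_pos h0] at hx
    exact h x (by omega) hx

lemma neg_upd {p j : ℤ} (hp : 1 ≤ p) (hpj : p ≤ j)
    (h : ∀ x : ℤ, 1 ≤ x → x ≤ j → x ≠ p → u x = w x) :
    neg u j + (if w p < 0 then 1 else 0) = neg w j + (if u p < 0 then 1 else 0) := by
  classical
  rw [neg, neg, Finset.card_filter, Finset.card_filter]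
  have hm : p ∈ Finset.Icc (1 : ℤ) j := Finset.mem_Icc.mpr ⟨hp, hpj⟩
  rw [← Finset.add_sum_erase _ _ hm, ← Finset.add_sum_erase _ _ hm]
  have : ∑ x ∈ (Finset.Icc (1 : ℤ) j).erase p, (if u x < 0 then 1 else 0) =
      ∑ x ∈ (Finset.Icc (1 : ℤ) j).erase p, (if w x < 0 then 1 else 0) := by
    refine Finset.sum_congr rfl fun x hx => ?_
    rw [Finset.mem_erase, Finset.mem_Icc] at hx
    rw [h x hx.2.1 hx.2.2 hx.1]
  rw [this]
  ring

lemma neg_const {k j : ℤ} (hkj : k ≤ j) (h : ∀ x : ℤ, k < x → x ≤ j → 0 < w x) :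
    neg w j = neg w k := by
  rw [neg, neg]
  congr 1
  ext x
  simp only [Finset.mem_filter, Finset.mem_Icc]
  constructor
  · rintro ⟨⟨h1, h2⟩, h3⟩
    refine ⟨⟨h1, ?_⟩, h3⟩
    by_contra hcon
    have := h x (by omega) h2
    omega
  · rintro ⟨⟨h1, h2⟩, h3⟩
    exact ⟨⟨h1, by omega⟩, h3⟩

lemma neg_zero' {j : ℤ} (h : ∀ x : ℤ, 1 ≤ x → x ≤ j → 0 < w x) : neg w j = 0 := by
  rw [neg, Finset.card_eq_zero, Finset.filter_eq_empty_iff]
  intro x hx
  rw [Finset.mem_Icc] at hx
  have := h x hx.1 hx.2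
  omega

lemma neg_one' {b : ℤ} (hb : 1 ≤ b) (hwb : w b < 0) (h : ∀ x : ℤ, 1 ≤ x → x < b → 0 < w x) :
    neg w b = 1 := by
  rw [neg, Finset.card_eq_one]
  refine ⟨b, ?_⟩
  ext x
  simp only [Finset.mem_filter, Finset.mem_Icc, Finset.mem_singleton]
  constructor
  · rintro ⟨⟨h1, h2⟩, h3⟩
    by_contra hcon
    have := h x h1 (by omega)
    omega
  · rintro rfl
    exact ⟨⟨hb, le_refl _⟩, hwb⟩

/-- pigeonhole -/
lemma ph (hw : Aff n w) {M : ℤ} (hM : 0 ≤ M) (S : Finset ℤ) (hS : ∀ x ∈ S, 1 ≤ x ∧ |w x| ≤ M) :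
    (S.card : ℤ) ≤ M := by
  have h1 : S.card ≤ (Finset.Icc (1 : ℤ) M).card := by
    refine Finset.card_le_card_of_injOn (fun x => |w x|) ?_ ?_
    · intro x hx
      have := hS x hx
      have h0 := abs_pos.mpr (ne_zero hw (i := x) (by omega))
      simp only [Finset.coe_Icc, Set.mem_Icc]
      exact ⟨by omega, this.2⟩
    · intro x hx y hy hxy
      have h2 := hS x hx
      have h3 := hS y hy
      simp only at hxy
      rcases abs_eq_abs.mp hxy with h | h
      · exact w.injective h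
      · rw [← hw.1] at h
        have := w.injective h
        omega
  rw [Int.card_Icc] at h1
  omega

lemma exists_big (hB : InB n w) (hodd : ¬ Even (neg w n))
    (hlow : ∀ x : ℤ, 1 ≤ x → x ≤ n → -(2 * n + 2 : ℤ) < w x) :
    ∃ i : ℤ, 1 ≤ i ∧ i ≤ n ∧ (2 * n + 2 : ℤ) < w i := by
  by_contra hcon
  push Not at hcon
  apply hodd
  have h1 := (inB_iff hB.1).mp hB
  have h2 : par n w = -(neg w n : ℤ) := by
    rw [par, neg, Finset.card_filter]
    push_cast
    rw [← Finset.sum_neg_distrib]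
    refine Finset.sum_congr rfl fun x hx => ?_
    rw [Finset.mem_Icc] at hx
    split_ifs with h
    · exact div_neg_one (hlow x hx.1 hx.2).le h
    · have h3 := hcon x hx.1 hx.2
      have h4 := val_ne hB.1 hx.1 hx.2 2
      rw [Int.ediv_eq_zero_of_lt (by omega) (by omega)]
      norm_num
  rw [h2, even_neg] at h1
  exact_mod_cast h1

lemma exists_move (hw : Aff n w) (h : w ≠ 1) : ∃ x : ℤ, 1 ≤ x ∧ x ≤ n ∧ w x ≠ x := by
  by_contra hcon
  push Not at hcon
  apply h
  ext x
  obtain ⟨r, e, k, hr0, hr1, he, hx⟩ := rep n x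
  have hr : w r = r := by
    by_cases h1 : r = 0
    · rw [h1, hw.zero]
    · by_cases h2 : r = n + 1
      · have := hw.center 1
        rw [one_mul] at this
        rw [h2, this]
      · exact hcon r (by omega) (by omega)
  rw [hx, hw.act _ _ _ he, hr]
  rfl

lemma tvd_pos (ht : t ∈ Refl n) : 0 < tvd n t := by
  obtain ⟨hB, i, j, hij, htr⟩ := ht
  have hne : t ≠ 1 := by
    rintro rfl
    have := (htr.1 1 0 (Or.inl rfl)).1
    simp only [one_mul, zero_mul, add_zero, Equiv.Perm.coe_one, id_eq] at this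
    exact hij this
  obtain ⟨x, hx1, hx2, hx⟩ := exists_move hB.1 hne
  rw [tvd]
  refine Finset.sum_pos' (fun i _ => abs_nonneg _) ⟨x, Finset.mem_Icc.mpr ⟨hx1, hx2⟩, ?_⟩
  exact abs_pos.mpr (sub_ne_zero.mpr hx)

/-- the step of the induction -/
def Step (n : ℕ) (w : Equiv.Perm ℤ) : Prop := ∃ t ∈ Refl n, R n (w * t) + tvd n t ≤ R n w

lemma close (hw : Aff n w) (ht : Info n t)
    (h : ∀ i ∈ Finset.Icc (1 : ℤ) n, |w i - t i| + |t i - i| = |w i - i|)
    (hJ : ∀ j ∈ J n (w * t), Good t j) : Step n w := by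
  refine ⟨t, ht.mem, ?_⟩
  have h1 := addit hw ht.aff ht.inv h
  have h2 : (J n (w * t)).card ≤ (J n w).card := by
    apply Finset.card_le_card
    intro j hj
    exact (J_iff hw ht.mem (mem_J.mp hj).1 (hJ j hj)).mp hj
  rw [R, R]
  have h3 : ((J n (w * t)).card : ℤ) ≤ (J n w).card := by exact_mod_cast h2
  linarith

lemma S1 (hw : Aff n w) {a b : ℤ} (ha : 1 ≤ a) (hab : a < b) (hb : b ≤ n) (h1 : b ≤ w a)
    (h2 : w b ≤ a)
    (hbad : ∀ j : ℤ, a ≤ j → j < b → (∀ x : ℤ, 1 ≤ x → x ≤ j → x ≠ a → |w x| ≤ j) → |w b| ≤ j →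
      Even (neg w j + if w b < 0 then 1 else 0)) : Step n w := by
  obtain ⟨t, ht, hta, htb, hfix⟩ := ref1 (n := n) ha hab hb
  refine close hw ht ?_ ?_
  · intro i hi
    rw [Finset.mem_Icc] at hi
    by_cases hia : i = a
    · rw [hia, hta, abs_of_nonneg (by omega), abs_of_pos (by omega), abs_of_pos (by omega)]; ring
    · by_cases hib : i = b
      · rw [hib, htb, abs_of_nonpos (by omega), abs_of_neg (by omega), abs_of_neg (by omega)]; ring
      · rw [hfix i hi.1 hi.2 hia hib, sub_self, abs_zero, add_zero]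
  · intro j hj
    obtain ⟨hjn, hj1, hg, hodd⟩ := mem_J.mp hj
    by_cases hja : (j : ℤ) < a
    · refine good_of_window ht.aff (by omega) fun x hx hx' => ?_
      rw [hfix x hx (by omega) (by omega) (by omega), abs_of_pos (by omega)]
      exact hx'
    · by_cases hjb : b ≤ j
      · refine good_of_window ht.aff (by omega) fun x hx hx' => ?_
        by_cases hxa : x = a
        · rw [hxa, hta, abs_of_pos (by omega)]; exact hjb
        · by_cases hxb : x = b
          · rw [hxb, htb, abs_of_pos (by omega)]; omega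
          · rw [hfix x hx (by omega) hxa hxb, abs_of_pos (by omega)]
            exact hx'
      · exfalso
        apply hodd
        have hu : ∀ x : ℤ, 1 ≤ x → x ≤ j → x ≠ a → (w * t) x = w x := by
          intro x hx hx' hxa
          rw [Equiv.Perm.mul_apply, hfix x hx (by omega) hxa (by omega)]
        have hua : (w * t) a = w b := by rw [Equiv.Perm.mul_apply, hta]
        have h3 := neg_upd (u := w * t) (w := w) (p := a) (j := j) ha (by omega) hu
        rw [hua, if_neg (show ¬ w a < 0 by omega), add_zero] at h3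
        rw [h3]
        refine hbad j (by omega) (by omega) ?_ ?_
        · intro x hx hx' hxa
          rw [← hu x hx hx' hxa]
          exact hg x (by rw [abs_of_pos (by omega)]; exact hx')
        · rw [← hua]
          exact hg a (by rw [abs_of_pos (by omega)]; omega)

lemma S2 (hw : Aff n w) {p c : ℤ} (hp : 1 ≤ p) (hpc : p < c) (hc : c ≤ n) (h1 : w p ≤ -c)
    (h2 : w c ≤ -p)
    (hbad : ∀ j : ℤ, p ≤ j → j < c → ¬ Even (neg w j)) : Step n w := by
  obtain ⟨t, ht, htp, htc, hfix⟩ := ref2 (n := n) hp hpc hc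
  refine close hw ht ?_ ?_
  · intro i hi
    rw [Finset.mem_Icc] at hi
    by_cases hia : i = p
    · rw [hia, htp, abs_of_nonpos (by omega), abs_of_neg (by omega), abs_of_neg (by omega)]; ring
    · by_cases hib : i = c
      · rw [hib, htc, abs_of_nonpos (by omega), abs_of_neg (by omega), abs_of_neg (by omega)]; ring
      · rw [hfix i hi.1 hi.2 hia hib, sub_self, abs_zero, add_zero]
  · intro j hj
    obtain ⟨hjn, hj1, hg, hodd⟩ := mem_J.mp hj
    by_cases hja : (j : ℤ) < p
    · refine good_of_window ht.aff (by omega) fun x hx hx' => ?_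
      rw [hfix x hx (by omega) (by omega) (by omega), abs_of_pos (by omega)]
      exact hx'
    · by_cases hjb : c ≤ j
      · refine good_of_window ht.aff (by omega) fun x hx hx' => ?_
        by_cases hxa : x = p
        · rw [hxa, htp, abs_neg, abs_of_pos (by omega)]; exact hjb
        · by_cases hxb : x = c
          · rw [hxb, htc, abs_neg, abs_of_pos (by omega)]; omega
          · rw [hfix x hx (by omega) hxa hxb, abs_of_pos (by omega)]
            exact hx'
      · exfalso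
        have hu : ∀ x : ℤ, 1 ≤ x → x ≤ j → x ≠ p → (w * t) x = w x := by
          intro x hx hx' hxa
          rw [Equiv.Perm.mul_apply, hfix x hx (by omega) hxa (by omega)]
        have hua : (w * t) p = -w c := by rw [Equiv.Perm.mul_apply, htp, hw.1]
        have h3 := neg_upd (u := w * t) (w := w) (p := p) (j := j) hp (by omega) hu
        rw [hua, if_pos (show w p < 0 by omega), if_neg (show ¬ -w c < 0 by omega), add_zero] at h3
        have h4 := hbad j (by omega) (by omega)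
        rw [← h3] at h4
        rw [Nat.not_even_iff_odd] at h4 hodd
        exact absurd (hodd.add_odd odd_one) (by rw [Nat.not_even_iff_odd]; exact h4)

lemma S3 (hw : Aff n w) {i : ℤ} (hi : 1 ≤ i) (hin : i ≤ n) (h1 : 2 * n + 2 - i ≤ w i)
    (hbad : ∀ j : ℤ, i ≤ j → j < n → (∀ x : ℤ, 1 ≤ x → x ≤ j → x ≠ i → |w x| ≤ j) →
      |2 * n + 2 - w i| ≤ j → Even (neg w j + if (2 * n + 2 : ℤ) < w i then 1 else 0)) :
    Step n w := by
  obtain ⟨t, ht, hti, hfix⟩ := ref3 (n := n) hi hin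
  refine close hw ht ?_ ?_
  · intro x hx
    rw [Finset.mem_Icc] at hx
    by_cases hia : x = i
    · rw [hia, hti, abs_of_nonneg (by omega), abs_of_pos (by omega), abs_of_pos (by omega)]; ring
    · rw [hfix x hx.1 hx.2 hia, sub_self, abs_zero, add_zero]
  · intro j hj
    obtain ⟨hjn, hj1, hg, hodd⟩ := mem_J.mp hj
    by_cases hja : (j : ℤ) < i
    · refine good_of_window ht.aff (by omega) fun x hx hx' => ?_
      rw [hfix x hx (by omega) (by omega), abs_of_pos (by omega)]
      exact hx'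
    · exfalso
      apply hodd
      have hu : ∀ x : ℤ, 1 ≤ x → x ≤ j → x ≠ i → (w * t) x = w x := by
        intro x hx hx' hxa
        rw [Equiv.Perm.mul_apply, hfix x hx (by omega) hxa]
      have hua : (w * t) i = 2 * n + 2 - w i := by
        rw [Equiv.Perm.mul_apply, hti, show 2 * (n : ℤ) + 2 - i = -i + (2 * n + 2) by ring, hw.2,
          hw.1]
        ring
      have h3 := neg_upd (u := w * t) (w := w) (p := i) (j := j) hi (by omega) hu
      rw [hua, if_neg (show ¬ w i < 0 by omega), add_zero] at h3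
      rw [h3]
      have h5 : (2 * (n : ℤ) + 2 - w i < 0) ↔ (2 * (n : ℤ) + 2 < w i) := by
        constructor <;> intro h <;> linarith
      simp only [h5]
      refine hbad j (by omega) (by omega) ?_ ?_
      · intro x hx hx' hxa
        rw [← hu x hx hx' hxa]
        exact hg x (by rw [abs_of_pos (by omega)]; exact hx')
      · rw [← hua]
        exact hg i (by rw [abs_of_pos (by omega)]; omega)

lemma S4 (hw : Aff n w) {p : ℤ} (hp : 1 ≤ p) (hpn : p ≤ n) (h1 : w p ≤ -(2 * n + 2) - p)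
    (hbad : ∀ j : ℤ, p ≤ j → j < n → ¬ Even (neg w j)) : Step n w := by
  obtain ⟨t, ht, htp, hfix⟩ := ref4 (n := n) hp hpn
  refine close hw ht ?_ ?_
  · intro x hx
    rw [Finset.mem_Icc] at hx
    by_cases hia : x = p
    · rw [hia, htp, abs_of_nonpos (by omega), abs_of_neg (by omega), abs_of_neg (by omega)]; ring
    · rw [hfix x hx.1 hx.2 hia, sub_self, abs_zero, add_zero]
  · intro j hj
    obtain ⟨hjn, hj1, hg, hodd⟩ := mem_J.mp hj
    by_cases hja : (j : ℤ) < p
    · refine good_of_window ht.aff (by omega) fun x hx hx' => ?_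
      rw [hfix x hx (by omega) (by omega), abs_of_pos (by omega)]
      exact hx'
    · exfalso
      have hu : ∀ x : ℤ, 1 ≤ x → x ≤ j → x ≠ p → (w * t) x = w x := by
        intro x hx hx' hxa
        rw [Equiv.Perm.mul_apply, hfix x hx (by omega) hxa]
      have hua : (w * t) p = -(w p + (2 * n + 2)) := by
        rw [Equiv.Perm.mul_apply, htp, show -(2 * (n : ℤ) + 2) - p = -(p + (2 * n + 2)) by ring,
          hw.1, hw.2]
      have h3 := neg_upd (u := w * t) (w := w) (p := p) (j := j) hp (by omega) hu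
      rw [hua, if_pos (show w p < 0 by omega), if_neg (show ¬ -(w p + (2 * n + 2)) < 0 by omega),
        add_zero] at h3
      have h4 := hbad j (by omega) (by omega)
      rw [← h3] at h4
      rw [Nat.not_even_iff_odd] at h4 hodd
      exact absurd (hodd.add_odd odd_one) (by rw [Nat.not_even_iff_odd]; exact h4)

/-- removing a place of `J` -/
lemma S0 (hw : Aff n w) {j : ℕ} (hj : j ∈ J n w) (h : w ((j : ℤ) + 1) < 0) : Step n w := by
  obtain ⟨hjn, hj1, hg, hodd⟩ := mem_J.mp hj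
  obtain ⟨t, ht, hta, htb, hfix⟩ := ref1 (n := n) (a := j) (b := (j : ℤ) + 1) (by omega)
    (by omega) (by omega)
  have hwj : |w j| ≤ j := hg j (by rw [abs_of_pos (by omega)])
  have hwj1 : ¬ |w ((j : ℤ) + 1)| ≤ j := by
    intro hc
    have := hg.inv hc
    rw [abs_of_pos (by omega)] at this
    omega
  refine ⟨t, ht.mem, ?_⟩
  have hne : (j : ℤ) ≠ (j : ℤ) + 1 := by omega
  have m1 : (j : ℤ) ∈ Finset.Icc (1 : ℤ) n := Finset.mem_Icc.mpr ⟨by omega, by omega⟩
  have m2 : (j : ℤ) + 1 ∈ (Finset.Icc (1 : ℤ) n).erase j :=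
    Finset.mem_erase.mpr ⟨by omega, Finset.mem_Icc.mpr ⟨by omega, by omega⟩⟩
  have e1 : tvd n (w * t) = tvd n w := by
    rw [tvd, tvd, ← Finset.add_sum_erase _ _ m1, ← Finset.add_sum_erase _ _ m2,
      ← Finset.add_sum_erase _ (fun i => |w i - i|) m1,
      ← Finset.add_sum_erase _ (fun i => |w i - i|) m2]
    have h3 : ∑ x ∈ ((Finset.Icc (1 : ℤ) n).erase j).erase ((j : ℤ) + 1), |(w * t) x - x| =
        ∑ x ∈ ((Finset.Icc (1 : ℤ) n).erase j).erase ((j : ℤ) + 1), |w x - x| := by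
      refine Finset.sum_congr rfl fun x hx => ?_
      rw [Finset.mem_erase, Finset.mem_erase, Finset.mem_Icc] at hx
      rw [Equiv.Perm.mul_apply, hfix x hx.2.2.1 hx.2.2.2 hx.2.1 hx.1]
    rw [h3]
    simp only [Equiv.Perm.mul_apply, hta, htb]
    rw [abs_le] at hwj
    rw [abs_of_neg (show w ((j : ℤ) + 1) - j < 0 by omega),
      abs_of_neg (show w (j : ℤ) - ((j : ℤ) + 1) < 0 by omega),
      abs_of_nonpos (show w (j : ℤ) - j ≤ 0 by omega),
      abs_of_neg (show w ((j : ℤ) + 1) - ((j : ℤ) + 1) < 0 by omega)]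
    ring
  have e2 : tvd n t = 2 := by
    rw [tvd, ← Finset.add_sum_erase _ _ m1, ← Finset.add_sum_erase _ _ m2]
    have h3 : ∑ x ∈ ((Finset.Icc (1 : ℤ) n).erase j).erase ((j : ℤ) + 1), |t x - x| = 0 := by
      apply Finset.sum_eq_zero
      intro x hx
      rw [Finset.mem_erase, Finset.mem_erase, Finset.mem_Icc] at hx
      rw [hfix x hx.2.2.1 hx.2.2.2 hx.2.1 hx.1, sub_self, abs_zero]
    rw [h3, hta, htb]
    rw [show (j : ℤ) + 1 - j = 1 by ring, show (j : ℤ) - (j + 1) = -1 by ring]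
    norm_num
  have e3 : J n (w * t) ⊆ (J n w).erase j := by
    intro i hi
    rw [Finset.mem_erase]
    obtain ⟨hin, hi1, hgi, hoddi⟩ := mem_J.mp hi
    have hij : i ≠ j := by
      rintro rfl
      have := hgi i (by rw [abs_of_pos (by omega)])
      rw [Equiv.Perm.mul_apply, hta] at this
      exact hwj1 this
    refine ⟨hij, (J_iff hw ht.mem hin ?_).mp hi⟩
    refine good_of_window ht.aff (by omega) fun x hx hx' => ?_
    by_cases hxa : x = j
    · rw [hxa, hta, abs_of_pos (by omega)]; omega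
    · by_cases hxb : x = (j : ℤ) + 1
      · rw [hxb, htb, abs_of_pos (by omega)]; omega
      · rw [hfix x hx (by omega) hxa hxb, abs_of_pos (by omega)]
        exact hx'
  have e4 := Finset.card_le_card e3
  rw [Finset.card_erase_of_mem hj] at e4
  have e5 := Finset.card_pos.mpr ⟨j, hj⟩
  rw [R, R, e1, e2]
  omega

end Pool.Agent.X251.BC
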